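import Pool.Agent.Q250.CB.One
import Pool.Agent.H353R2.Z2

set_option autoImplicit false

/-! # Counting pairs and numbers -/

namespace Pool.Agent.Q250.CB

open Finset Polynomial
open Pool.Agent.Q148.CN (ex Dk BadP vv Cong arith)

lemma primes_many (L τ : ℕ) (hL : 2 ≤ L) (h : 10 ^ 7 * L ^ 2 ≤ τ) :
    (τ : ℝ) / (4 * Real.log τ) ≤ #((Ioc (320 * L) τ).filter Nat.Prime) := by
  have hLR : (2 : ℝ) ≤ L := by exact_mod_cast hL
  have hτR : 10 ^ 7 * (L : ℝ) ^ 2 ≤ τ := by exact_mod_cast h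
  have hτ7 : (4 : ℝ) * 10 ^ 7 ≤ τ := by nlinarith
  have hτ0 : (0 : ℝ) < τ := by linarith
  have hlogpos : 0 < Real.log τ := Real.log_pos (by linarith)
  set x : ℝ := (τ : ℝ) with hx
  have hs : 3000 * (L : ℝ) ≤ √x := by
    apply Real.le_sqrt_of_sq_le
    nlinarith
  have hss : √x * √x = x := Real.mul_self_sqrt hτ0.le
  have hlog : Real.log x ≤ 2 * √x := by
    have h1 : Real.log (√x) ≤ √x - 1 := Real.log_le_sub_one_of_pos (Real.sqrt_pos.mpr hτ0)
    have h2 : Real.log x = 2 * Real.log (√x) := by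
      rw [Real.log_sqrt hτ0.le]
      ring
    rw [h2]
    linarith
  have hlog1 : Real.log (x + 1) ≤ 3 * √x := by
    have h1 : Real.log (x + 1) ≤ Real.log (2 * x) := Real.log_le_log (by linarith) (by linarith)
    rw [Real.log_mul (by norm_num) hτ0.ne'] at h1
    have h2 := Real.log_two_lt_d9
    nlinarith
  have hpi := Chebyshev.pi_ge τ
  rw [← hx] at hpi
  have hl2 := Real.log_two_gt_d9
  have h1 : x / (2 * Real.log x) ≤ (x * Real.log 2 - Real.log (x + 1)) / Real.log x := by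
    rw [div_le_div_iff₀ (by positivity) hlogpos]
    have h2 : x ≤ 2 * (x * Real.log 2 - Real.log (x + 1)) := by
      have h3 : x * (0.69 : ℝ) ≤ x * Real.log 2 := by
        apply mul_le_mul_of_nonneg_left _ hτ0.le
        linarith
      nlinarith
    calc x * Real.log x ≤ 2 * (x * Real.log 2 - Real.log (x + 1)) * Real.log x :=
          mul_le_mul_of_nonneg_right h2 hlogpos.le
      _ = _ := by ring
  have h2 : (320 * (L : ℝ) + 1) ≤ x / (4 * Real.log x) := by
    rw [le_div_iff₀ (by positivity)]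
    have h3 : (320 * (L : ℝ) + 1) * (4 * Real.log x) ≤ (320 * L + 1) * (4 * (2 * √x)) := by
      gcongr
    have h4 : 8 * (320 * (L : ℝ) + 1) ≤ √x := by nlinarith
    have h5 : (8 * (320 * (L : ℝ) + 1)) * √x ≤ √x * √x :=
      mul_le_mul_of_nonneg_right h4 (Real.sqrt_nonneg _)
    linarith
  have h3 : ((Nat.primeCounting τ : ℕ) : ℝ) ≤
      #((Ioc (320 * L) τ).filter Nat.Prime) + (320 * (L : ℝ) + 1) := by
    have h4 : Nat.primeCounting τ = #((range (τ + 1)).filter Nat.Prime) := by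
      unfold Nat.primeCounting Nat.primeCounting'
      rw [Nat.count_eq_card_filter_range]
    have h5 : (range (τ + 1)).filter Nat.Prime ⊆
        (Ioc (320 * L) τ).filter Nat.Prime ∪ range (320 * L + 1) := by
      intro p hp
      rw [Finset.mem_filter, Finset.mem_range] at hp
      rw [Finset.mem_union, Finset.mem_filter, Finset.mem_Ioc, Finset.mem_range]
      by_cases h6 : p < 320 * L + 1
      · exact Or.inr h6
      · left
        exact ⟨⟨by omega, by omega⟩, hp.2⟩
    have h6 := (Finset.card_le_card h5).trans (Finset.card_union_le _ _)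
    rw [← h4, Finset.card_range] at h6
    exact_mod_cast h6
  have h4 : x / (2 * Real.log x) = x / (4 * Real.log x) + x / (4 * Real.log x) := by
    field_simp
    ring
  linarith

/-- the numbers of the family -/
def nn (B W : ℕ) (x : ℕ × ℕ) : ℕ :=
  B * (uj B W x.1 x.2 * ((uj B W x.1 x.2 - B * W ^ 2 * x.1 ^ 2) * (uj B W x.1 x.2 + B * W ^ 2 * x.1 ^ 2)))

lemma v_lt (B W t j : ℕ) : B * W ^ 2 * t ^ 2 < uj B W t j := by
  unfold uj
  have : W * (j + B * W * t ^ 2) = W * j + B * W ^ 2 * t ^ 2 := by ring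
  rw [this]
  have : 0 ≤ W * j := Nat.zero_le _
  omega

lemma nn_cast (B W t j : ℕ) : ((nn B W (t, j) : ℕ) : ℝ) = nj B W t j := by
  unfold nn nj
  have h := v_lt B W t j
  push_cast
  rw [Nat.cast_sub h.le]
  unfold vv
  push_cast
  ring

lemma nn_inj (B W : ℕ) (hB : 1 ≤ B) (hW : 1 ≤ W) (x y : ℕ × ℕ) (h1 : nn B W x = nn B W y)
    (h2 : uj B W x.1 x.2 = uj B W y.1 y.2) : x = y := by
  obtain ⟨t, j⟩ := x
  obtain ⟨t', j'⟩ := y
  simp only at h2
  have h3 : nj B W t j = nj B W t' j' := by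
    rw [← nn_cast, ← nn_cast, h1]
  unfold nj at h3
  rw [h2] at h3
  have hu : 0 < uj B W t' j' := by
    unfold uj
    omega
  have huR : (0 : ℝ) < uj B W t' j' := by exact_mod_cast hu
  have hBR : (0 : ℝ) < B := by exact_mod_cast hB
  have hWR : (0 : ℝ) < W := by exact_mod_cast hW
  have h4 : (vv B W t) ^ 2 * uj B W t' j' = (vv B W t') ^ 2 * uj B W t' j' := by
    have := mul_left_cancel₀ hBR.ne' h3
    linarith
  have h5 : (vv B W t) ^ 2 = (vv B W t') ^ 2 := mul_right_cancel₀ huR.ne' h4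
  have h6 : vv B W t = vv B W t' := by
    have e1 : 0 ≤ vv B W t := by unfold vv; positivity
    have e2 : 0 ≤ vv B W t' := by unfold vv; positivity
    exact (sq_eq_sq₀ e1 e2).mp h5
  unfold vv at h6
  have h7 : (t : ℝ) ^ 2 = (t' : ℝ) ^ 2 := by
    have : (B : ℝ) * (W : ℝ) ^ 2 ≠ 0 := by positivity
    exact mul_left_cancel₀ this h6
  have h8 : (t : ℝ) = t' := (sq_eq_sq₀ (Nat.cast_nonneg _) (Nat.cast_nonneg _)).mp h7
  have h9 : t = t' := by exact_mod_cast h8
  subst h9
  unfold uj at h2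
  have h10 : W * (j + B * W * t ^ 2) = W * (j' + B * W * t ^ 2) := by omega
  have h11 := Nat.eq_of_mul_eq_mul_left (by omega) h10
  have h12 : j = j' := by omega
  rw [h12]

open Classical in
lemma fibre (B W n : ℕ) (hB : 1 ≤ B) (hW : 1 ≤ W) (hn : n ≠ 0) (S : Finset (ℕ × ℕ)) :
    #(S.filter (fun x => nn B W x = n)) ≤ #n.divisors := by
  apply Finset.card_le_card_of_injOn (fun x => uj B W x.1 x.2)
  · intro x hx
    rw [Finset.mem_coe, Finset.mem_filter] at hx
    rw [Finset.mem_coe, Nat.mem_divisors]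
    refine ⟨?_, hn⟩
    rw [← hx.2]
    unfold nn
    exact Dvd.dvd.mul_left (Dvd.intro _ rfl) _
  · intro x hx y hy hxy
    rw [Finset.mem_coe, Finset.mem_filter] at hx hy
    exact nn_inj B W hB hW x y (hx.2.trans hy.2.symm) hxy

end Pool.Agent.Q250.CB
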