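import Pool.Agent.Q250.CB.Low

set_option autoImplicit false

/-! # The dichotomy together with its consequence for irrational leading coefficients -/

namespace Pool.Agent.Q250.CB

open Polynomial
open Pool.Agent.Q148.CN (Cong)

theorem both (d : ℕ) (hd : 1 ≤ d) : ∃ A : ℕ, ∃ δ : ℝ, 0 < δ ∧ ∀ M : ℕ, 0 < M → ∀ k : ℕ, Squarefree k →
    (∀ η : ℝ, 0 < η → ∃ c C : ℝ, 0 < c ∧ 0 < C ∧ ∀ P : ℝ[X], P.natDegree ≤ d →
      ∀ X ε : ℝ, 1 ≤ X → 0 < ε → ε ≤ 1 →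
      (∃ q : ℕ, 1 ≤ q ∧ (q : ℝ) ≤ C / ε ^ A ∧
        ∃ a : ℤ, |q * P.coeff d - a| ≤ C / (ε ^ A * X ^ d)) ∨
      c * ε * X ^ (1 / 2 - η) ≤ ((Good k M P X ε).ncard : ℝ)) ∧
    (∀ P : ℝ[X], P.natDegree ≤ d → (∃ i, 1 ≤ i ∧ Irrational (P.coeff i)) → (Near k M P δ).Infinite) := by
  obtain ⟨δ, hδ, hnear⟩ := near_all d hd (by
    intro i hi
    obtain ⟨A, hA, h⟩ := main i hi
    have hAR : (1 : ℝ) ≤ A := by exact_mod_cast hA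
    refine ⟨1 / (4 * A), by positivity, ?_⟩
    intro M hM k hk P hP hirr
    obtain ⟨c, C, hc, hC, H⟩ := h M hM k hk (1 / 8) (by norm_num)
    exact infinite_near i A hi hA k M c C hc hC P hirr (H P hP))
  obtain ⟨A, hA, h⟩ := main d hd
  exact ⟨A, δ, hδ, fun M hM k hk => ⟨h M hM k hk, fun P hP hirr => hnear M hM k hk P hP hirr⟩⟩

/-- transport to the classes and the definition of a row -/
theorem transport (d : ℕ) (hd : 1 ≤ d) (R : ℕ → Prop) (K : ℕ → Prop) (s : ℕ) (hs : 0 < s)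
    (hR : ∀ n k, K k → n ≡ k [MOD s] → Cong n → R n) :
    ∃ A : ℕ, ∃ δ : ℝ, 0 < δ ∧ ∀ M : ℕ, 0 < M → ∀ k : ℕ, Squarefree k → K k →
    (∀ η : ℝ, 0 < η → ∃ c C : ℝ, 0 < c ∧ 0 < C ∧ ∀ P : ℝ[X], P.natDegree ≤ d →
      ∀ X ε : ℝ, 1 ≤ X → 0 < ε → ε ≤ 1 →
      (∃ q : ℕ, 1 ≤ q ∧ (q : ℝ) ≤ C / ε ^ A ∧
        ∃ a : ℤ, |q * P.coeff d - a| ≤ C / (ε ^ A * X ^ d)) ∨
      c * ε * X ^ (1 / 2 - η) ≤ ({n : ℕ | (n : ℝ) ≤ X ∧ Squarefree n ∧ n ≡ k [MOD s * M] ∧ R n ∧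
        ∃ m : ℤ, |P.eval (n : ℝ) - m| < ε}.ncard : ℝ)) ∧
    (∀ P : ℝ[X], P.natDegree ≤ d → (∃ i, 1 ≤ i ∧ Irrational (P.coeff i)) →
      {n : ℕ | Squarefree n ∧ n ≡ k [MOD s * M] ∧ R n ∧
        ∃ m : ℤ, |P.eval (n : ℝ) - m| < (n : ℝ) ^ (-δ)}.Infinite) := by
  obtain ⟨A, δ, hδ, h⟩ := both d hd
  refine ⟨A, δ, hδ, ?_⟩
  intro M hM k hk hK
  obtain ⟨h1, h2⟩ := h (s * M) (by positivity) k hk
  have hRn : ∀ n, n ≡ k [MOD s * M] → Cong n → R n := fun n hn hc =>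
    hR n k hK (hn.of_dvd (Dvd.intro M rfl)) hc
  constructor
  · intro η hη
    obtain ⟨c, C, hc, hC, H⟩ := h1 η hη
    refine ⟨c, C, hc, hC, ?_⟩
    intro P hP X ε hX hε hε1
    rcases H P hP X ε hX hε hε1 with h3 | h3
    · exact Or.inl h3
    · right
      refine h3.trans ?_
      have hfin : {n : ℕ | (n : ℝ) ≤ X ∧ Squarefree n ∧ n ≡ k [MOD s * M] ∧ R n ∧
          ∃ m : ℤ, |P.eval (n : ℝ) - m| < ε}.Finite := by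
        apply (Set.finite_Iic ⌊X⌋₊).subset
        intro n hn
        exact Nat.le_floor hn.1
      have hsub : Good k (s * M) P X ε ⊆ {n : ℕ | (n : ℝ) ≤ X ∧ Squarefree n ∧ n ≡ k [MOD s * M] ∧
          R n ∧ ∃ m : ℤ, |P.eval (n : ℝ) - m| < ε} := by
        intro n hn
        exact ⟨hn.1, hn.2.1, hn.2.2.1, hRn n hn.2.2.1 hn.2.2.2.1, hn.2.2.2.2⟩
      exact_mod_cast Set.ncard_le_ncard hsub hfin
  · intro P hP hirr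
    apply (h2 P hP hirr).mono
    intro n hn
    exact ⟨hn.1, hn.2.1, hRn n hn.2.1 hn.2.2.1, hn.2.2.2⟩

end Pool.Agent.Q250.CB
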