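import Pool.Agent.Q250.CB.Phase

set_option autoImplicit false

/-! # Counting indices with values near integers outside of a sparse set -/

namespace Pool.Agent.Q250.CB

open Finset
open Pool.Agent.Q148.CN (ex Dk mk ex_norm ex_zero ex_add ex_conj mk_le mk_nonpos int_mk mk_fourier
  Dk_norm_le cos_diff sin_le)

lemma mk_le_Dk (L : ℕ) (hL : 1 ≤ L) (y : ℝ) : mk L y ≤ 20 * ‖Dk L y‖ ^ 2 := by
  have hL0 : (0 : ℝ) < L := by exact_mod_cast hL
  unfold Pool.Agent.Q148.CN.mk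
  rw [cos_diff]
  have h1 := sin_le L hL
  have h2 : ‖Dk L y‖ ^ 2 ≤ (L : ℝ) ^ 2 := pow_le_pow_left₀ (norm_nonneg _) (Dk_norm_le L y) 2
  have h3 : 2 * Real.sin (Real.pi / L) ^ 2 - 2 * Real.sin (Real.pi * y) ^ 2 ≤ 20 / (L : ℝ) ^ 2 := by
    have h4 : 0 ≤ Real.sin (Real.pi * y) ^ 2 := sq_nonneg _
    have h5 : 2 * (10 / (L : ℝ) ^ 2) = 20 / (L : ℝ) ^ 2 := by ring
    linarith
  have h6 : 0 ≤ ‖Dk L y‖ ^ 2 := by positivity
  calc ‖Dk L y‖ ^ 4 * (2 * Real.sin (Real.pi / L) ^ 2 - 2 * Real.sin (Real.pi * y) ^ 2) ≤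
      ‖Dk L y‖ ^ 4 * (20 / (L : ℝ) ^ 2) := mul_le_mul_of_nonneg_left h3 (by positivity)
    _ = ‖Dk L y‖ ^ 2 * (‖Dk L y‖ ^ 2 * (20 / (L : ℝ) ^ 2)) := by ring
    _ ≤ ‖Dk L y‖ ^ 2 * ((L : ℝ) ^ 2 * (20 / (L : ℝ) ^ 2)) := by gcongr
    _ = 20 * ‖Dk L y‖ ^ 2 := by field_simp

lemma sum_Dk_sq (S : Finset ℕ) (y : ℕ → ℝ) (L : ℕ) (E : ℝ) (hE : 0 ≤ E)
    (h : ∀ k : ℤ, k ≠ 0 → |k| < L → ‖∑ j ∈ S, ex (k * y j)‖ ≤ E) :
    ∑ j ∈ S, ‖Dk L (y j)‖ ^ 2 ≤ L * #S + (L : ℝ) ^ 2 * E := by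
  have h1 : ∀ x : ℝ, ((‖Dk L x‖ ^ 2 : ℝ) : ℂ) =
      ∑ k ∈ range L, ∑ l ∈ range L, ex ((((k : ℤ) - (l : ℤ) : ℤ) : ℝ) * x) := by
    intro x
    have h2 : ((‖Dk L x‖ ^ 2 : ℝ) : ℂ) = Dk L x * (starRingEnd ℂ) (Dk L x) := by
      rw [Complex.mul_conj, Complex.normSq_eq_norm_sq]
    rw [h2]
    unfold Dk
    rw [map_sum, Finset.sum_mul_sum]
    apply Finset.sum_congr rfl
    intro k _
    apply Finset.sum_congr rfl
    intro l _
    rw [ex_conj, ← ex_add]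
    congr 1
    push_cast
    ring
  have h3 : ((∑ j ∈ S, ‖Dk L (y j)‖ ^ 2 : ℝ) : ℂ) =
      ∑ k ∈ range L, ∑ l ∈ range L, ∑ j ∈ S, ex ((((k : ℤ) - (l : ℤ) : ℤ) : ℝ) * y j) := by
    rw [Complex.ofReal_sum, Finset.sum_congr rfl (fun j _ => h1 (y j)), Finset.sum_comm]
    apply Finset.sum_congr rfl
    intro k _
    rw [Finset.sum_comm]
  have h4 : ∑ j ∈ S, ‖Dk L (y j)‖ ^ 2 = ‖((∑ j ∈ S, ‖Dk L (y j)‖ ^ 2 : ℝ) : ℂ)‖ := by
    rw [Complex.norm_real, Real.norm_eq_abs, abs_of_nonneg]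
    exact Finset.sum_nonneg (fun j _ => by positivity)
  rw [h4, h3]
  calc ‖∑ k ∈ range L, ∑ l ∈ range L, ∑ j ∈ S, ex ((((k : ℤ) - (l : ℤ) : ℤ) : ℝ) * y j)‖ ≤
      ∑ k ∈ range L, ∑ l ∈ range L, ‖∑ j ∈ S, ex ((((k : ℤ) - (l : ℤ) : ℤ) : ℝ) * y j)‖ :=
        (norm_sum_le _ _).trans (Finset.sum_le_sum (fun k _ => norm_sum_le _ _))
    _ ≤ ∑ k ∈ range L, ∑ l ∈ range L, ((if k = l then (#S : ℝ) else 0) + E) := by
        apply Finset.sum_le_sum
        intro k hk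
        apply Finset.sum_le_sum
        intro l hl
        rw [Finset.mem_range] at hk hl
        split_ifs with hkl
        · have h5 : ‖∑ j ∈ S, ex ((((k : ℤ) - (l : ℤ) : ℤ) : ℝ) * y j)‖ ≤ #S := by
            refine (norm_sum_le _ _).trans ?_
            simp [ex_norm]
          linarith
        · have h5 := h ((k : ℤ) - l) (by omega) (by rw [abs_lt]; omega)
          linarith
    _ = L * #S + (L : ℝ) ^ 2 * E := by
        simp only [Finset.sum_add_distrib, Finset.sum_const, Finset.card_range, nsmul_eq_mul,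
          Finset.sum_ite_eq, Finset.mem_range]
        rw [Finset.sum_congr rfl (fun k hk => if_pos (Finset.mem_range.mp hk)), Finset.sum_const,
          Finset.card_range, nsmul_eq_mul]
        ring

lemma sum_mk_ge (N L : ℕ) (hL : 2 ≤ L) (y : ℕ → ℝ)
    (h : ∀ k : ℤ, k ≠ 0 → |k| ≤ 2 * L → ‖∑ j ∈ range N, ex (k * y j)‖ ≤ N / (88 * L)) :
    (L : ℝ) * N ≤ ∑ j ∈ range N, mk L (y j) := by
  have hL0 : (0 : ℝ) < L := by
    have : 0 < L := by omega
    exact_mod_cast this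
  obtain ⟨c, hc1, hc2, hc3⟩ := mk_fourier L hL
  have h0 := int_mk L hL
  set I : ℝ := ∫ y in (0 : ℝ)..1, mk L y with hI
  have h1 : ((∑ j ∈ range N, mk L (y j) : ℝ) : ℂ) =
      ∑ k ∈ range (4 * L), c k * ∑ j ∈ range N, ex ((((k : ℤ) - (2 * L - 1 : ℤ) : ℤ) : ℝ) * y j) := by
    rw [Complex.ofReal_sum, Finset.sum_congr rfl (fun j _ => hc1 (y j)), Finset.sum_comm]
    apply Finset.sum_congr rfl
    intro k _
    rw [Finset.mul_sum]
  have hmem : 2 * L - 1 ∈ range (4 * L) := by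
    rw [Finset.mem_range]
    omega
  rw [← Finset.add_sum_erase _ _ hmem] at h1
  have h2 : ∑ j ∈ range N, ex (((((2 * L - 1 : ℕ) : ℤ) - (2 * L - 1 : ℤ) : ℤ) : ℝ) * y j) = N := by
    have h3 : (((2 * L - 1 : ℕ) : ℤ) - (2 * L - 1 : ℤ) : ℤ) = 0 := by omega
    rw [h3]
    simp [ex_zero]
  rw [h2, hc3] at h1
  have h4 : ‖((∑ j ∈ range N, mk L (y j) : ℝ) : ℂ) - (I : ℂ) * N‖ ≤ L * N := by
    rw [h1, add_sub_cancel_left]
    calc ‖∑ k ∈ (range (4 * L)).erase (2 * L - 1), c k *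
          ∑ j ∈ range N, ex ((((k : ℤ) - (2 * L - 1 : ℤ) : ℤ) : ℝ) * y j)‖ ≤
        ∑ k ∈ (range (4 * L)).erase (2 * L - 1), (22 * L : ℝ) * (N / (88 * L)) := by
          refine (norm_sum_le _ _).trans (Finset.sum_le_sum ?_)
          intro k hk
          rw [Finset.mem_erase, Finset.mem_range] at hk
          rw [norm_mul]
          have h5 := hc2 k hk.2
          have h6 := h ((k : ℤ) - (2 * L - 1 : ℤ)) (by omega) (by rw [abs_le]; omega)
          exact mul_le_mul h5 h6 (norm_nonneg _) (by positivity)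
      _ ≤ ∑ k ∈ range (4 * L), (22 * L : ℝ) * (N / (88 * L)) := by
          apply Finset.sum_le_sum_of_subset_of_nonneg (Finset.erase_subset _ _)
          intro i _ _
          positivity
      _ = L * N := by
          rw [Finset.sum_const, Finset.card_range, nsmul_eq_mul]
          push_cast
          field_simp
          ring
  have h5 : ‖((∑ j ∈ range N, mk L (y j) : ℝ) : ℂ) - (I : ℂ) * N‖ = |∑ j ∈ range N, mk L (y j) - I * N| := by
    rw [← Real.norm_eq_abs, ← Complex.norm_real]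
    congr 1
    push_cast
    rfl
  rw [h5] at h4
  have h6 := (abs_le.mp h4).1
  have h7 : 2 * (L : ℝ) * N ≤ I * N := mul_le_mul_of_nonneg_right h0 (Nat.cast_nonneg _)
  linarith

open Classical in
/-- **Counting.**  If the sum of the minorant over all indices is large and the bad indices are
covered by the sets `A i` with small sums of `|D_L| ^ 2` and a small set `R`, then many good indices
have values near integers. -/
lemma good_count {ι : Type} (I : Finset ι) (A : ι → Finset ℕ) (R : Finset ℕ) (N L : ℕ) (hL : 2 ≤ L)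
    (y : ℕ → ℝ) (bad : ℕ → Prop)
    (h : ∀ k : ℤ, k ≠ 0 → |k| ≤ 2 * L → ‖∑ j ∈ range N, ex (k * y j)‖ ≤ N / (88 * L))
    (hcov : ∀ j, j < N → bad j → j ∈ R ∨ ∃ i ∈ I, j ∈ A i)
    (hA : 20 * ∑ i ∈ I, ∑ j ∈ A i, ‖Dk L (y j)‖ ^ 2 ≤ (L : ℝ) * N / 4)
    (hR : 20 * (L : ℝ) ^ 2 * #R ≤ 3 * (L : ℝ) * N / 8) :
    (N : ℝ) / (60 * L) ≤ #((range N).filter (fun j => ¬ bad j ∧ ∃ k : ℤ, |y j - k| < 1 / L)) := by
  have hL0 : (0 : ℝ) < L := by
    have : 0 < L := by omega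
    exact_mod_cast this
  have hL1 : 1 ≤ L := by omega
  set G := (range N).filter (fun j => ¬ bad j ∧ ∃ k : ℤ, |y j - k| < 1 / L) with hG
  have h1 := sum_mk_ge N L hL y h
  have h2 : ∀ j ∈ range N, mk L (y j) ≤ (if j ∈ G then 20 * (L : ℝ) ^ 2 else 0) +
      (if j ∈ R then 20 * (L : ℝ) ^ 2 else 0) +
      ∑ i ∈ I, (if j ∈ A i then 20 * ‖Dk L (y j)‖ ^ 2 else 0) := by
    intro j hj
    have e1 : (0 : ℝ) ≤ (if j ∈ G then 20 * (L : ℝ) ^ 2 else 0) := by split_ifs <;> positivity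
    have e2 : (0 : ℝ) ≤ (if j ∈ R then 20 * (L : ℝ) ^ 2 else 0) := by split_ifs <;> positivity
    have e3' : ∀ i ∈ I, (0 : ℝ) ≤ (if j ∈ A i then 20 * ‖Dk L (y j)‖ ^ 2 else 0) := by
      intro i _
      split_ifs <;> positivity
    have e3 := Finset.sum_nonneg e3'
    by_cases hb : bad j
    · rcases hcov j (Finset.mem_range.mp hj) hb with h3 | ⟨i, hi, h3⟩
      · have h4 := mk_le L hL1 (y j)
        rw [if_pos h3]
        linarith
      · have h4 := mk_le_Dk L hL1 (y j)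
        have h5 := Finset.single_le_sum e3' hi
        rw [if_pos h3] at h5
        linarith
    · by_cases hn : ∃ k : ℤ, |y j - k| < 1 / L
      · have h3 : j ∈ G := by
          rw [hG, Finset.mem_filter]
          exact ⟨hj, hb, hn⟩
        have h4 := mk_le L hL1 (y j)
        rw [if_pos h3]
        linarith
      · push Not at hn
        have h4 := mk_nonpos L hL (y j) hn
        linarith
  have h3 : ∑ j ∈ range N, mk L (y j) ≤ 20 * (L : ℝ) ^ 2 * #G + 20 * (L : ℝ) ^ 2 * #R +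
      20 * ∑ i ∈ I, ∑ j ∈ A i, ‖Dk L (y j)‖ ^ 2 := by
    refine (Finset.sum_le_sum h2).trans ?_
    rw [Finset.sum_add_distrib, Finset.sum_add_distrib]
    have g1 : ∀ S : Finset ℕ, ∑ j ∈ range N, (if j ∈ S then 20 * (L : ℝ) ^ 2 else 0) ≤
        20 * (L : ℝ) ^ 2 * #S := by
      intro S
      rw [← Finset.sum_filter, Finset.sum_const, nsmul_eq_mul, mul_comm]
      apply mul_le_mul_of_nonneg_left _ (by positivity)
      have : #((range N).filter (fun j => j ∈ S)) ≤ #S := by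
        apply Finset.card_le_card
        intro j hj
        exact (Finset.mem_filter.mp hj).2
      exact_mod_cast this
    have g2 : ∑ j ∈ range N, ∑ i ∈ I, (if j ∈ A i then 20 * ‖Dk L (y j)‖ ^ 2 else 0) ≤
        20 * ∑ i ∈ I, ∑ j ∈ A i, ‖Dk L (y j)‖ ^ 2 := by
      rw [Finset.sum_comm, Finset.mul_sum]
      apply Finset.sum_le_sum
      intro i _
      rw [← Finset.sum_filter, Finset.mul_sum]
      apply Finset.sum_le_sum_of_subset_of_nonneg
      · intro j hj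
        exact (Finset.mem_filter.mp hj).2
      · intro j _ _
        positivity
    have g3 := g1 G
    have g4 := g1 R
    linarith
  have h4 : (L : ℝ) * N / 3 ≤ 20 * (L : ℝ) ^ 2 * #G := by
    have h5 : (0 : ℝ) ≤ (L : ℝ) * N := by positivity
    have h6 : 3 * (L : ℝ) * N / 8 = 3 / 8 * (L * N) := by ring
    rw [h6] at hR
    linarith
  rw [div_le_iff₀ (by positivity)]
  have h5 : (L : ℝ) * N ≤ L * (#G * (60 * L)) := by
    calc (L : ℝ) * N = 3 * (L * N / 3) := by ring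
      _ ≤ 3 * (20 * (L : ℝ) ^ 2 * #G) := by gcongr
      _ = _ := by ring
  exact le_of_mul_le_mul_left h5 hL0

end Pool.Agent.Q250.CB
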