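import Pool.Agent.Q250.CB.Agg

set_option autoImplicit false
set_option maxHeartbeats 4000000

/-! # The dichotomy -/

namespace Pool.Agent.Q250.CB

open Finset Polynomial
open Pool.Agent.Q148.CN (ex Dk BadP vv Cong arith)

/-- the numbers counted -/
def Good (k M : ℕ) (P : ℝ[X]) (X ε : ℝ) : Set ℕ :=
  {n : ℕ | (n : ℝ) ≤ X ∧ Squarefree n ∧ n ≡ k [MOD M] ∧ Cong n ∧ ∃ m : ℤ, |P.eval (n : ℝ) - m| < ε}

lemma Good_finite (k M : ℕ) (P : ℝ[X]) (X ε : ℝ) : (Good k M P X ε).Finite := by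
  apply (Set.finite_Iic ⌊X⌋₊).subset
  intro n hn
  exact Nat.le_floor hn.1

open Classical in
lemma combine (B W M N L : ℕ) (P : ℝ[X]) (X ε D : ℝ) (𝒯 : Finset ℕ) (hB : Squarefree B) (hBW : B ∣ W)
    (h2 : 2 ∣ W) (hW : 1 ≤ W) (hM : M ∣ W) (hX : (B : ℝ) * (2 * W * N) ^ 3 ≤ X) (hL : 1 / (L : ℝ) < ε) (hD0 : 0 ≤ D)
    (hD : ∀ n : ℕ, n ≠ 0 → (n : ℝ) ≤ X → (#n.divisors : ℝ) ≤ D)
    (hT : ∀ t ∈ 𝒯, t.Prime ∧ B * W * t ^ 2 ≤ N ∧ (N : ℝ) / (60 * L) ≤
      #((range N).filter (fun j => ¬ BadP B W (uj B W t j) t ∧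
        ∃ k : ℤ, |P.eval (nj B W t j) - k| < 1 / L))) :
    #𝒯 * ((N : ℝ) / (60 * L)) ≤ D * (Good B M P X ε).ncard := by
  have hB1 : 1 ≤ B := Nat.one_le_iff_ne_zero.mpr hB.ne_zero
  set S : Finset (ℕ × ℕ) := (𝒯 ×ˢ range N).filter (fun x => ¬ BadP B W (uj B W x.1 x.2) x.1 ∧
    ∃ k : ℤ, |P.eval (nj B W x.1 x.2) - k| < 1 / L) with hS
  have h1 : #𝒯 * ((N : ℝ) / (60 * L)) ≤ #S := by
    have h3 : #S = ∑ t ∈ 𝒯, #(S.filter (fun x => x.1 = t)) := by
      apply Finset.card_eq_sum_card_fiberwise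
      intro x hx
      rw [Finset.mem_coe, hS, Finset.mem_filter, Finset.mem_product] at hx
      exact hx.1.1
    rw [h3]
    push_cast
    rw [← nsmul_eq_mul, ← Finset.sum_const]
    apply Finset.sum_le_sum
    intro t ht
    refine (hT t ht).2.2.trans ?_
    have h4 : #((range N).filter (fun j => ¬ BadP B W (uj B W t j) t ∧
        ∃ k : ℤ, |P.eval (nj B W t j) - k| < 1 / L)) ≤ #(S.filter (fun x => x.1 = t)) := by
      apply Finset.card_le_card_of_injOn (fun j => (t, j))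
      · intro j hj
        rw [Finset.mem_coe, Finset.mem_filter] at hj
        rw [Finset.mem_coe, Finset.mem_filter, hS, Finset.mem_filter, Finset.mem_product]
        exact ⟨⟨⟨ht, hj.1⟩, hj.2⟩, rfl⟩
      · intro a _ b _ hab
        simpa using hab
    exact_mod_cast h4
  refine h1.trans ?_
  have hmem : ∀ x ∈ S, nn B W x ∈ Good B M P X ε := by
    intro x hx
    rw [hS, Finset.mem_filter, Finset.mem_product, Finset.mem_range] at hx
    obtain ⟨⟨hx1, hx2⟩, hx3, hx4⟩ := hx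
    obtain ⟨htp, htN, -⟩ := hT x.1 hx1
    obtain ⟨n, hn1, hn2, hn3, hn4⟩ := arith B W (uj B W x.1 x.2) x.1 hB hBW h2 hW htp.one_lt.le
      (uj_mod B W x.1 x.2) (v_lt B W x.1 x.2) hx3
    have hn5 : n = nn B W x := by
      have h3 : (n : ℝ) = nn B W x := by
        rw [hn1]
        exact (nn_cast B W x.1 x.2).symm
      exact_mod_cast h3
    rw [hn5] at hn2 hn3 hn4
    refine ⟨?_, hn2, hn3.of_dvd hM, hn4, ?_⟩
    · refine le_trans ?_ hX
      have h3 : ((nn B W x : ℕ) : ℝ) = nj B W x.1 x.2 := nn_cast B W x.1 x.2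
      rw [h3]
      unfold nj
      apply mul_le_mul_of_nonneg_left _ (Nat.cast_nonneg _)
      have h4 : ((uj B W x.1 x.2 : ℕ) : ℝ) ≤ 2 * W * N := by
        exact_mod_cast uj_le B W x.1 N x.2 hW hx2 htN
      have h5 : ((uj B W x.1 x.2 : ℕ) : ℝ) ^ 3 ≤ (2 * W * N) ^ 3 :=
        pow_le_pow_left₀ (Nat.cast_nonneg _) h4 3
      have h6 : 0 ≤ (vv B W x.1) ^ 2 * ((uj B W x.1 x.2 : ℕ) : ℝ) := by positivity
      linarith
    · obtain ⟨m, hm⟩ := hx4
      refine ⟨m, ?_⟩
      have h3 : ((nn B W x : ℕ) : ℝ) = nj B W x.1 x.2 := nn_cast B W x.1 x.2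
      rw [h3]
      exact hm.trans hL
  have h3 : (#S : ℝ) ≤ ∑ n ∈ S.image (nn B W), D := by
    rw [Finset.card_eq_sum_card_image (nn B W) S]
    push_cast
    apply Finset.sum_le_sum
    intro n hn
    rw [Finset.mem_image] at hn
    obtain ⟨x, hx, rfl⟩ := hn
    have h4 := hmem x hx
    have h5 : nn B W x ≠ 0 := h4.2.1.ne_zero
    refine le_trans ?_ (hD _ h5 h4.1)
    exact_mod_cast fibre B W (nn B W x) hB1 hW h5 S
  refine h3.trans ?_
  rw [Finset.sum_const, nsmul_eq_mul, mul_comm]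
  apply mul_le_mul_of_nonneg_left _ hD0
  have h4 : #(S.image (nn B W)) ≤ (Good B M P X ε).ncard := by
    rw [← Set.ncard_coe_finset]
    apply Set.ncard_le_ncard _ (Good_finite B M P X ε)
    intro n hn
    rw [Finset.mem_coe, Finset.mem_image] at hn
    obtain ⟨x, hx, rfl⟩ := hn
    exact hmem x hx
  exact_mod_cast h4

lemma prim_W : ∃ W0 : ℕ, 1 ≤ W0 ∧ ∀ p : ℕ, p.Prime → p ≤ 960 → p ∣ W0 :=
  ⟨Nat.factorial 960, Nat.factorial_pos _, fun _ hp h => (hp.dvd_factorial).mpr h⟩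

lemma aux1 (x : ℝ) (hx : 1 < x) : (x + 1) ^ 2 ≤ 4 * x ^ 2 := by nlinarith

lemma aux2 (x y : ℝ) : 32 * x ^ 2 * y ^ 2 ≤ (6 * x * y) ^ 2 := by
  have : 0 ≤ x ^ 2 * y ^ 2 := by positivity
  nlinarith

lemma aux3 (a x y z : ℝ) (ha : 1 ≤ a) (hx : 0 ≤ x) (hy : 0 ≤ y) (hz : z ≤ 1) :
    z ≤ a * (x + y + 1) ∧ a * y ≤ a * (x + y + 1) * 2 := by
  constructor
  · nlinarith [mul_nonneg (by linarith : 0 ≤ a) (add_nonneg hx hy)]
  · nlinarith [mul_nonneg (by linarith : 0 ≤ a) hx, mul_nonneg (by linarith : 0 ≤ a) hy]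

lemma aux4 (x y : ℝ) (hx : 1 ≤ x) (hy : 1 ≤ y) : 1 ≤ x * y :=
  one_le_mul_of_one_le_of_one_le hx hy

lemma aux5 (x : ℝ) (hx : 1 ≤ x) : 1 ≤ 8 * x ^ 2 := by nlinarith

/-- **The dichotomy.** -/
theorem main (d : ℕ) (hd : 1 ≤ d) : ∃ A : ℕ, 1 ≤ A ∧ ∀ M : ℕ, 0 < M → ∀ k : ℕ, Squarefree k →
    ∀ η : ℝ, 0 < η → ∃ c C : ℝ, 0 < c ∧ 0 < C ∧ ∀ P : ℝ[X], P.natDegree ≤ d →
    ∀ X ε : ℝ, 1 ≤ X → 0 < ε → ε ≤ 1 →
    (∃ q : ℕ, 1 ≤ q ∧ (q : ℝ) ≤ C / ε ^ A ∧
      ∃ a : ℤ, |q * P.coeff d - a| ≤ C / (ε ^ A * X ^ d)) ∨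
    c * ε * X ^ (1 / 2 - η) ≤ ((Good k M P X ε).ncard : ℝ) := by
  obtain ⟨A0, hA0⟩ := one_t d hd
  obtain ⟨W0, hW01, hW0⟩ := prim_W
  refine ⟨A0 + 12 * d, by omega, ?_⟩
  set A := A0 + 12 * d with hA
  intro M hM k hk η hη
  have hk1 : 1 ≤ k := Nat.one_le_iff_ne_zero.mpr hk.ne_zero
  set W : ℕ := 2 * M * k * W0 with hWdef
  have hW1 : 1 ≤ W := by
    rw [hWdef]
    exact Nat.one_le_iff_ne_zero.mpr (by positivity)
  have hWp : ∀ p : ℕ, p.Prime → p ≤ 960 → p ∣ W := fun p hp h =>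
    (hW0 p hp h).trans ⟨2 * M * k, by rw [hWdef]; ring⟩
  obtain ⟨C1, hC1, hone⟩ := hA0 k W hk1 hW1 hWp
  obtain ⟨D, hD0, hD⟩ := H353.divisor_bound_real (η / 2) (by linarith)
  have hkR : (1 : ℝ) ≤ k := by exact_mod_cast hk1
  have hWR : (1 : ℝ) ≤ W := by exact_mod_cast hW1
  set b : ℝ := (k : ℝ) * W with hb
  have hb1 : 1 ≤ b := aux4 _ _ hkR hWR
  set K1 : ℝ := 4 * 10 ^ 14 * b with hK1
  have hK11 : 1 ≤ K1 := aux4 _ _ (by norm_num) hb1
  set C : ℝ := 3 ^ A * (C1 * (8 * b) ^ (3 * d) + (8 * b * K1) ^ (3 * d) + 1) with hC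
  have h3A : (1 : ℝ) ≤ 3 ^ A := one_le_pow₀ (by norm_num)
  have e1 : (1 : ℝ) ≤ (8 * b) ^ (3 * d) := one_le_pow₀ (by linarith)
  have e2 : (0 : ℝ) < (8 * b * K1) ^ (3 * d) := by positivity
  have e3 : C1 ≤ C1 * (8 * b) ^ (3 * d) := le_mul_of_one_le_right (by linarith) e1
  refine ⟨η / (69120 * b ^ 2 * D), C, by positivity, by positivity, ?_⟩
  intro P hP X ε hX hε hε1
  set T : ℝ := X ^ (1 / 3 : ℝ) with hT
  have hX0 : 0 < X := by linarith
  have hT1 : 1 ≤ T := Real.one_le_rpow hX (by norm_num)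
  have hT3 : T ^ 3 = X := by
    rw [hT, ← Real.rpow_natCast, ← Real.rpow_mul hX0.le]
    norm_num
  have hTd : T ^ (3 * d) = X ^ d := by
    rw [pow_mul, hT3]
  set L : ℕ := ⌈1 / ε⌉₊ + 1 with hL
  have hinv : 1 ≤ 1 / ε := by
    rw [le_div_iff₀ hε]
    linarith
  have hL2 : 2 ≤ L := by
    have : 0 < ⌈1 / ε⌉₊ := Nat.ceil_pos.mpr (by positivity)
    omega
  have hLle : (L : ℝ) ≤ 3 / ε := by
    have h1 : (⌈1 / ε⌉₊ : ℝ) < 1 / ε + 1 := Nat.ceil_lt_add_one (by positivity)
    have h2 : (3 : ℝ) / ε = 3 * (1 / ε) := by ring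
    rw [hL]
    push_cast
    rw [h2]
    linarith
  have hLgt : 1 / (L : ℝ) < ε := by
    have h1 : 1 / ε ≤ (⌈1 / ε⌉₊ : ℝ) := Nat.le_ceil _
    have h2 : 1 / ε < (L : ℝ) := by
      rw [hL]
      push_cast
      linarith
    rw [div_lt_comm₀ (by positivity) hε]
    exact h2
  have hL0 : (0 : ℝ) < L := by
    have : 0 < L := by omega
    exact_mod_cast this
  have hL1R : (1 : ℝ) ≤ L := by
    have : 1 ≤ L := by omega
    exact_mod_cast this
  have hLA : (L : ℝ) ^ A ≤ 3 ^ A / ε ^ A := by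
    rw [← div_pow]
    exact pow_le_pow_left₀ hL0.le hLle A
  have hεA : 0 < ε ^ A := by positivity
  have hεA1 : ε ^ A ≤ 1 := pow_le_one₀ hε.le hε1
  set N : ℕ := ⌊T / (4 * b)⌋₊ with hN
  have hNlt : T / (4 * b) < N + 1 := Nat.lt_floor_add_one _
  have hNle : (N : ℝ) ≤ T / (4 * b) := Nat.floor_le (by positivity)
  rcases lt_or_ge (N : ℝ) (K1 * (L : ℝ) ^ 4) with hcase | hcase
  · -- small `X`
    left
    refine ⟨1, le_rfl, ?_, round (P.coeff d), ?_⟩
    · rw [le_div_iff₀ hεA]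
      push_cast
      rw [one_mul]
      rw [hC]
      exact (aux3 (3 ^ A) _ _ _ h3A (by positivity) e2.le hεA1).1
    · push_cast
      rw [one_mul]
      refine (abs_sub_round _).trans ?_
      rw [div_le_div_iff₀ (by norm_num) (by positivity), one_mul]
      have h1 : T ≤ 8 * b * K1 * (L : ℝ) ^ 4 := by
        rw [div_lt_iff₀ (by positivity)] at hNlt
        have h2 : (1 : ℝ) ≤ K1 * (L : ℝ) ^ 4 := aux4 _ _ hK11 (one_le_pow₀ hL1R)
        have h3 : T ≤ (K1 * (L : ℝ) ^ 4 + K1 * (L : ℝ) ^ 4) * (4 * b) := by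
          refine hNlt.le.trans ?_
          apply mul_le_mul_of_nonneg_right _ (by positivity)
          linarith
        calc T ≤ (K1 * (L : ℝ) ^ 4 + K1 * (L : ℝ) ^ 4) * (4 * b) := h3
          _ = _ := by ring
      have h2 : X ^ d ≤ (8 * b * K1) ^ (3 * d) * (L : ℝ) ^ A := by
        rw [← hTd]
        calc T ^ (3 * d) ≤ (8 * b * K1 * (L : ℝ) ^ 4) ^ (3 * d) := pow_le_pow_left₀ (by positivity) h1 _
          _ = (8 * b * K1) ^ (3 * d) * (L : ℝ) ^ (12 * d) := by
              rw [mul_pow, ← pow_mul]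
              congr 2
              ring
          _ ≤ (8 * b * K1) ^ (3 * d) * (L : ℝ) ^ A :=
              mul_le_mul_of_nonneg_left (pow_le_pow_right₀ hL1R (by omega)) e2.le
      calc ε ^ A * X ^ d ≤ ε ^ A * ((8 * b * K1) ^ (3 * d) * (3 ^ A / ε ^ A)) := by
            apply mul_le_mul_of_nonneg_left _ hεA.le
            exact h2.trans (mul_le_mul_of_nonneg_left hLA e2.le)
        _ = 3 ^ A * (8 * b * K1) ^ (3 * d) := by field_simp
        _ ≤ C * 2 := by
            rw [hC]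
            exact (aux3 (3 ^ A) _ _ _ h3A (by positivity) e2.le hεA1).2
  · -- large `X`
    have hN1R : (1 : ℝ) ≤ N := (aux4 _ _ hK11 (one_le_pow₀ hL1R)).trans hcase
    have hN0R : (0 : ℝ) < N := by linarith
    have hNge : T / (8 * b) ≤ N := by
      have h1 : T / (8 * b) = T / (4 * b) / 2 := by
        field_simp
        ring
      rw [h1]
      linarith
    have hcaseN : 4 * 10 ^ 14 * (k * W) * L ^ 4 ≤ N := by
      have : ((4 * 10 ^ 14 * (k * W) * L ^ 4 : ℕ) : ℝ) ≤ N := by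
        rw [hK1, hb] at hcase
        refine le_trans (le_of_eq ?_) hcase
        push_cast
        ring
      exact_mod_cast this
    set τ : ℕ := Nat.sqrt (N / (k * W)) with hτ
    have hkW : 0 < k * W := by positivity
    have hτL : 10 ^ 7 * L ^ 2 ≤ τ := by
      rw [hτ, Nat.le_sqrt', Nat.le_div_iff_mul_le hkW]
      calc (10 ^ 7 * L ^ 2) ^ 2 * (k * W) = 10 ^ 14 * (k * W) * L ^ 4 := by ring
        _ ≤ 4 * 10 ^ 14 * (k * W) * L ^ 4 := by
            apply Nat.mul_le_mul_right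
            apply Nat.mul_le_mul_right
            norm_num
        _ ≤ N := hcaseN
    have hτN : k * W * τ ^ 2 ≤ N := by
      have h1 : τ ^ 2 ≤ N / (k * W) := Nat.sqrt_le' _
      calc k * W * τ ^ 2 ≤ k * W * (N / (k * W)) := Nat.mul_le_mul_left _ h1
        _ ≤ N := Nat.mul_div_le _ _
    have hLW : 921600 * W * L ^ 2 ≤ N := by
      refine le_trans ?_ hcaseN
      have h1 : L ^ 2 ≤ L ^ 4 := Nat.pow_le_pow_right (by omega) (by norm_num)
      have h2 : 921600 * W ≤ 4 * 10 ^ 14 * (k * W) := by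
        have h3 : 1 * W ≤ k * W := Nat.mul_le_mul_right _ hk1
        have h4 : 921600 * (1 * W) ≤ 4 * 10 ^ 14 * (k * W) := Nat.mul_le_mul (by norm_num) h3
        rwa [one_mul] at h4
      exact Nat.mul_le_mul h2 h1
    set 𝒯 := (Ioc (320 * L) τ).filter Nat.Prime with h𝒯
    by_cases hex : ∃ t ∈ 𝒯, (∃ q : ℕ, 1 ≤ q ∧ (q : ℝ) ≤ C1 * (L : ℝ) ^ A0 ∧
        ∃ a : ℤ, |q * P.coeff d - a| ≤ C1 * (L : ℝ) ^ A0 / (N : ℝ) ^ (3 * d))
    · left
      obtain ⟨t, ht, q, hq1, hq2, a, ha⟩ := hex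
      have h1 : (L : ℝ) ^ A0 ≤ 3 ^ A / ε ^ A :=
        (pow_le_pow_right₀ hL1R (by omega)).trans hLA
      refine ⟨q, hq1, hq2.trans ?_, a, ha.trans ?_⟩
      · calc C1 * (L : ℝ) ^ A0 ≤ C1 * (3 ^ A / ε ^ A) := by gcongr
          _ = 3 ^ A * C1 / ε ^ A := by ring
          _ ≤ C / ε ^ A := by
              apply div_le_div_of_nonneg_right _ hεA.le
              rw [hC]
              apply mul_le_mul_of_nonneg_left _ (by positivity)
              linarith
      · have h2 : T ^ (3 * d) ≤ (8 * b) ^ (3 * d) * (N : ℝ) ^ (3 * d) := by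
          rw [← mul_pow]
          apply pow_le_pow_left₀ (by positivity)
          rw [div_le_iff₀ (by positivity)] at hNge
          linarith
        rw [div_le_div_iff₀ (by positivity) (by positivity)]
        calc C1 * (L : ℝ) ^ A0 * (ε ^ A * X ^ d) ≤
            C1 * (3 ^ A / ε ^ A) * (ε ^ A * ((8 * b) ^ (3 * d) * (N : ℝ) ^ (3 * d))) := by
              rw [← hTd]
              gcongr
          _ = 3 ^ A * (C1 * (8 * b) ^ (3 * d)) * (N : ℝ) ^ (3 * d) := by
              field_simp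
          _ ≤ C * (N : ℝ) ^ (3 * d) := by
              apply mul_le_mul_of_nonneg_right _ (by positivity)
              rw [hC]
              apply mul_le_mul_of_nonneg_left _ (by positivity)
              linarith
    · right
      have hcnt := combine k W M N L P X ε (D * X ^ (η / 2)) 𝒯 hk ⟨2 * M * W0, by rw [hWdef]; ring⟩
        ⟨M * k * W0, by rw [hWdef]; ring⟩ hW1 ⟨2 * k * W0, by rw [hWdef]; ring⟩
        (by
          rw [← hT3]
          have h1 : 2 * (W : ℝ) * N ≤ T / (2 * k) := by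
            calc 2 * (W : ℝ) * N ≤ 2 * W * (T / (4 * b)) := by gcongr
              _ = T / (2 * k) := by
                  rw [hb]
                  field_simp
                  ring
          calc (k : ℝ) * (2 * W * N) ^ 3 ≤ k * (T / (2 * k)) ^ 3 := by gcongr
            _ = T ^ 3 / (8 * (k : ℝ) ^ 2) := by
                field_simp
                ring
            _ ≤ T ^ 3 := div_le_self (by positivity) (aux5 _ hkR))
        hLgt (by positivity)
        (by
          intro n hn hnX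
          refine (hD n hn).trans ?_
          have : (n : ℝ) ^ (η / 2) ≤ X ^ (η / 2) :=
            Real.rpow_le_rpow (Nat.cast_nonneg _) hnX (by linarith)
          exact mul_le_mul_of_nonneg_left this hD0.le)
        (by
          intro t ht
          rw [h𝒯, Finset.mem_filter, Finset.mem_Ioc] at ht
          have htN : k * W * t ^ 2 ≤ N :=
            (Nat.mul_le_mul_left _ (Nat.pow_le_pow_left ht.1.2 2)).trans hτN
          refine ⟨ht.2, htN, ?_⟩
          rcases hone t N L P hP hL2 ht.2 ht.1.1.le hLW htN with h1 | h1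
          · exfalso
            apply hex
            refine ⟨t, ?_, h1⟩
            rw [h𝒯, Finset.mem_filter, Finset.mem_Ioc]
            exact ht
          · exact h1)
      have hτ0 : (0 : ℝ) < τ := by
        have : 0 < τ := by
          have : 0 < L ^ 2 := by positivity
          omega
        exact_mod_cast this
      have hτ1 : (1 : ℝ) < τ := by
        have : 1 < τ := by
          have : 0 < L ^ 2 := by positivity
          omega
        exact_mod_cast this
      have hpm := primes_many L τ hL2 hτL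
      have hlogpos : 0 < Real.log τ := Real.log_pos hτ1
      have hτX : (τ : ℝ) ≤ X := by
        have h1 : (τ : ℝ) ≤ N := by
          have h2 : τ ≤ N := by
            calc τ ≤ τ ^ 2 := Nat.le_self_pow (by norm_num) _
              _ ≤ k * W * τ ^ 2 := Nat.le_mul_of_pos_left _ hkW
              _ ≤ N := hτN
          exact_mod_cast h2
        have h2 : T / (4 * b) ≤ T := div_le_self (by linarith) (by linarith)
        have h3 : T ≤ T ^ 3 := le_self_pow₀ hT1 (by norm_num)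
        rw [hT3] at h3
        linarith
      set Y : ℝ := X ^ (η / 2) with hY
      have hY0 : 0 < Y := Real.rpow_pos_of_pos hX0 _
      have hlog : Real.log τ ≤ 2 * Y / η := by
        calc Real.log τ ≤ Real.log X := Real.log_le_log hτ0 hτX
          _ ≤ X ^ (η / 2) / (η / 2) := Real.log_le_rpow_div hX0.le (by linarith)
          _ = 2 * Y / η := by
              rw [hY]
              field_simp
      have hcardT : (τ : ℝ) * η / (8 * Y) ≤ #𝒯 := by
        refine le_trans ?_ hpm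
        rw [div_le_div_iff₀ (by positivity) (by positivity)]
        calc (τ : ℝ) * η * (4 * Real.log τ) ≤ τ * η * (4 * (2 * Y / η)) := by gcongr
          _ = τ * (8 * Y) := by
              field_simp
              ring
      set T2 : ℝ := X ^ (1 / 6 : ℝ) with hT2
      have hT20 : 0 < T2 := Real.rpow_pos_of_pos hX0 _
      have hT2T : T2 ^ 2 = T := by
        rw [hT2, hT, ← Real.rpow_natCast, ← Real.rpow_mul hX0.le]
        norm_num
      have hτT2 : T2 ≤ 6 * b * τ := by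
        have h1 : N < k * W * (τ + 1) ^ 2 := by
          have h2 : N / (k * W) < (τ + 1) ^ 2 := by
            rw [hτ]
            exact Nat.lt_succ_sqrt' _
          rw [Nat.div_lt_iff_lt_mul hkW] at h2
          rw [mul_comm]
          exact h2
        have h3 : (N : ℝ) ≤ b * (τ + 1) ^ 2 := by
          rw [hb]
          have : ((N : ℕ) : ℝ) < ((k * W * (τ + 1) ^ 2 : ℕ) : ℝ) := by exact_mod_cast h1
          push_cast at this
          exact this.le
        have h4 : ((τ : ℝ) + 1) ^ 2 ≤ 4 * (τ : ℝ) ^ 2 := aux1 _ hτ1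
        have h5 : (N : ℝ) ≤ b * (4 * (τ : ℝ) ^ 2) :=
          h3.trans (mul_le_mul_of_nonneg_left h4 (by linarith))
        have h6 : T ≤ 32 * b ^ 2 * (τ : ℝ) ^ 2 := by
          rw [div_le_iff₀ (by positivity)] at hNge
          calc T ≤ N * (8 * b) := hNge
            _ ≤ b * (4 * (τ : ℝ) ^ 2) * (8 * b) := by gcongr
            _ = _ := by ring
        have h7 : T2 ^ 2 ≤ (6 * b * τ) ^ 2 := by
          rw [hT2T]
          exact h6.trans (aux2 _ _)
        exact le_of_sq_le_sq h7 (by positivity)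
      have hfin : T2 / (6 * b) * η / (8 * Y) * (T / (8 * b) * (ε / 180)) ≤
          D * Y * (Good k M P X ε).ncard := by
        refine le_trans ?_ hcnt
        apply mul_le_mul
        · refine le_trans ?_ hcardT
          apply div_le_div_of_nonneg_right _ (by positivity)
          apply mul_le_mul_of_nonneg_right _ hη.le
          rw [div_le_iff₀ (by positivity)]
          linarith
        · have h8 : ε / 180 ≤ 1 / (60 * (L : ℝ)) := by
            rw [div_le_div_iff₀ (by norm_num) (by positivity)]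
            rw [le_div_iff₀ hε] at hLle
            linarith
          calc T / (8 * b) * (ε / 180) ≤ N * (1 / (60 * (L : ℝ))) :=
                mul_le_mul hNge h8 (by positivity) hN0R.le
            _ = (N : ℝ) / (60 * L) := by ring
        · positivity
        · exact Nat.cast_nonneg _
      have hpow : T2 * T = X ^ (1 / 2 - η) * Y * Y := by
        rw [hT2, hT, hY, ← Real.rpow_add hX0, ← Real.rpow_add hX0, ← Real.rpow_add hX0]
        congr 1
        ring
      set Z : ℝ := X ^ (1 / 2 - η) with hZ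
      have hkey : D * Y * (η / (69120 * b ^ 2 * D) * ε * Z) =
          T2 / (6 * b) * η / (8 * Y) * (T / (8 * b) * (ε / 180)) := by
        calc D * Y * (η / (69120 * b ^ 2 * D) * ε * Z) = (Z * Y * Y) * η * ε / (69120 * b ^ 2 * Y) := by
              field_simp
          _ = (T2 * T) * η * ε / (69120 * b ^ 2 * Y) := by rw [hpow]
          _ = T2 / (6 * b) * η / (8 * Y) * (T / (8 * b) * (ε / 180)) := by
              field_simp
              ring
      rw [← hkey] at hfin
      exact le_of_mul_le_mul_left hfin (by positivity)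

end Pool.Agent.Q250.CB
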