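import Pool.Agent.Q250.CB.Fin

set_option autoImplicit false
set_option maxHeartbeats 4000000

/-! # Polynomials with irrational leading coefficient -/

namespace Pool.Agent.Q250.CB

open Finset Polynomial
open Pool.Agent.Q148.CN (Cong)

lemma den_large (α : ℝ) (hα : Irrational α) (Q0 : ℕ) :
    ∃ r : ℚ, |α - r| < 1 / (r.den : ℝ) ^ 2 ∧ Q0 < r.den := by
  by_contra hcon
  push Not at hcon
  have hinf := Real.infinite_rat_abs_sub_lt_one_div_den_sq_of_irrational hα
  apply hinf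
  set Bd : ℤ := ⌈(|α| + 1) * Q0⌉ with hBd
  have hfin : Set.Finite ((fun r : ℚ => (r.num, r.den)) '' {r : ℚ | |α - r| < 1 / (r.den : ℝ) ^ 2}) := by
    apply ((Set.finite_Icc (-Bd) Bd).prod (Set.finite_Iic Q0)).subset
    rintro x ⟨r, hr, rfl⟩
    have hden := hcon r hr
    have hd1 : (1 : ℝ) ≤ r.den := by exact_mod_cast r.den_pos
    have h1 : |α - r| < 1 := by
      refine lt_of_lt_of_le hr ?_
      rw [div_le_one (by positivity)]
      exact one_le_pow₀ hd1
    have h2 : |(r : ℝ)| ≤ |α| + 1 := by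
      have h3 := abs_sub_abs_le_abs_sub (r : ℝ) α
      rw [abs_sub_comm] at h3
      linarith
    have h3 : (r : ℝ) = r.num / r.den := Rat.cast_def r
    have h4 : |((r.num : ℤ) : ℝ)| ≤ (|α| + 1) * Q0 := by
      have h5 : ((r.num : ℤ) : ℝ) = r * r.den := by
        rw [h3]
        field_simp
      rw [h5, abs_mul, abs_of_pos (by linarith : (0 : ℝ) < r.den)]
      have h6 : (r.den : ℝ) ≤ Q0 := by exact_mod_cast hden
      gcongr
    have h5 : |((r.num : ℤ) : ℝ)| ≤ (Bd : ℝ) := h4.trans (Int.le_ceil _)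
    have h6 : |r.num| ≤ Bd := by exact_mod_cast h5
    rw [Set.mem_prod, Set.mem_Icc, Set.mem_Iic]
    exact ⟨abs_le.mp h6, hden⟩
  apply hfin.of_finite_image
  intro r _ s _ hrs
  simp only [Prod.mk.injEq] at hrs
  exact Rat.ext hrs.1 hrs.2

/-- the infinite version -/
def Near (k M : ℕ) (P : ℝ[X]) (δ : ℝ) : Set ℕ :=
  {n : ℕ | Squarefree n ∧ n ≡ k [MOD M] ∧ Cong n ∧ ∃ m : ℤ, |P.eval (n : ℝ) - m| < (n : ℝ) ^ (-δ)}

theorem infinite_near (d A : ℕ) (hd : 1 ≤ d) (hA : 1 ≤ A) (k M : ℕ) (c C : ℝ) (hc : 0 < c) (hC : 0 < C)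
    (P : ℝ[X]) (hP : Irrational (P.coeff d))
    (H : ∀ X ε : ℝ, 1 ≤ X → 0 < ε → ε ≤ 1 →
      (∃ q : ℕ, 1 ≤ q ∧ (q : ℝ) ≤ C / ε ^ A ∧
        ∃ a : ℤ, |q * P.coeff d - a| ≤ C / (ε ^ A * X ^ d)) ∨
      c * ε * X ^ (1 / 2 - 1 / 8 : ℝ) ≤ ((Good k M P X ε).ncard : ℝ)) :
    (Near k M P (1 / (4 * A))).Infinite := by
  intro hfin
  set δ : ℝ := 1 / (4 * A) with hδ
  have hAR : (1 : ℝ) ≤ A := by exact_mod_cast hA
  have hδ0 : 0 < δ := by rw [hδ]; positivity
  have hδ1 : δ ≤ 1 / 4 := by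
    rw [hδ, div_le_div_iff₀ (by positivity) (by norm_num)]
    linarith
  set s : ℝ := ((Near k M P δ).ncard : ℝ) with hs
  obtain ⟨r, hr1, hr2⟩ := den_large (P.coeff d) hP (⌈4 * C ^ 2⌉₊ + ⌈(s / c) ^ 4⌉₊ + 1)
  set Q : ℕ := r.den with hQ
  have hQpos : 0 < Q := r.den_pos
  have hQ0 : (0 : ℝ) < Q := by exact_mod_cast hQpos
  have hQ1 : (1 : ℝ) ≤ Q := by exact_mod_cast hQpos
  have hQC : 4 * C ^ 2 < Q := by
    have h1 : (4 * C ^ 2 : ℝ) ≤ ⌈4 * C ^ 2⌉₊ := Nat.le_ceil _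
    have h2 : ⌈4 * C ^ 2⌉₊ < Q := by omega
    have h3 : ((⌈4 * C ^ 2⌉₊ : ℕ) : ℝ) < Q := by exact_mod_cast h2
    linarith
  have hQs : (s / c) ^ 4 < Q := by
    have h1 : ((s / c) ^ 4 : ℝ) ≤ ⌈(s / c) ^ 4⌉₊ := Nat.le_ceil _
    have h2 : ⌈(s / c) ^ 4⌉₊ < Q := by omega
    have h3 : ((⌈(s / c) ^ 4⌉₊ : ℕ) : ℝ) < Q := by exact_mod_cast h2
    linarith
  set R : ℝ := √(Q : ℝ) with hR
  have hR0 : 0 < R := Real.sqrt_pos.mpr hQ0
  have hRR : R ^ 2 = Q := Real.sq_sqrt hQ0.le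
  have hR1 : 1 ≤ R := by
    rw [hR]
    exact Real.one_le_sqrt.mpr hQ1
  set X : ℝ := R ^ 4 with hX
  have hX1 : 1 ≤ X := one_le_pow₀ hR1
  have hX0 : 0 < X := by linarith
  set ε : ℝ := X ^ (-δ) with hε
  have hε0 : 0 < ε := Real.rpow_pos_of_pos hX0 _
  have hε1 : ε ≤ 1 := Real.rpow_le_one_of_one_le_of_nonpos hX1 (by linarith)
  have hXR : X ^ (-(1 / 4 : ℝ)) = 1 / R := by
    rw [Real.rpow_neg hX0.le, hX, ← Real.rpow_natCast, ← Real.rpow_mul hR0.le]
    norm_num
  have hεA : ε ^ A = 1 / R := by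
    rw [hε, ← Real.rpow_natCast, ← Real.rpow_mul hX0.le, ← hXR]
    congr 1
    rw [hδ]
    field_simp
  rcases H X ε hX1 hε0 hε1 with ⟨q, hq1, hq2, a, ha⟩ | h
  · rw [hεA] at hq2 ha
    have hq2' : (q : ℝ) ≤ C * R := by
      calc (q : ℝ) ≤ C / (1 / R) := hq2
        _ = C * R := by field_simp
    have hq0 : (0 : ℝ) < q := by exact_mod_cast hq1
    have ha' : |q * P.coeff d - a| ≤ C / R ^ 3 := by
      refine ha.trans ?_
      apply div_le_div_of_nonneg_left hC.le (by positivity)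
      have h1 : X ≤ X ^ d := le_self_pow₀ hX1 (by omega)
      calc R ^ 3 = 1 / R * R ^ 4 := by field_simp
        _ ≤ 1 / R * X ^ d := by
            apply mul_le_mul_of_nonneg_left h1 (by positivity)
    have hrQ : (r : ℝ) = r.num / Q := Rat.cast_def r
    -- the integer `q p - a Q`
    have hint : |((q * r.num - a * Q : ℤ) : ℝ)| < 1 := by
      have h1 : ((q * r.num - a * Q : ℤ) : ℝ) =
          Q * (q * P.coeff d - a) - q * Q * (P.coeff d - r) := by
        push_cast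
        rw [hrQ]
        field_simp
        ring
      rw [h1]
      have h2 : |(Q : ℝ) * (q * P.coeff d - a)| ≤ C / R := by
        rw [abs_mul, abs_of_pos hQ0]
        calc (Q : ℝ) * |q * P.coeff d - a| ≤ Q * (C / R ^ 3) := by gcongr
          _ = C / R := by
              rw [← hRR]
              field_simp
      have h3 : |(q : ℝ) * Q * (P.coeff d - r)| < C / R := by
        rw [abs_mul, abs_of_pos (by positivity : (0 : ℝ) < q * Q)]
        calc (q : ℝ) * Q * |P.coeff d - r| < q * Q * (1 / (Q : ℝ) ^ 2) := by gcongr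
          _ = q / Q := by field_simp
          _ ≤ C * R / Q := by gcongr
          _ = C / R := by
              rw [← hRR]
              field_simp
      have h4 : 2 * C < R := by
        have h5 : (2 * C) ^ 2 < R ^ 2 := by
          rw [hRR]
          nlinarith
        exact lt_of_pow_lt_pow_left₀ 2 hR0.le h5
      have h5 : C / R < 1 / 2 := by
        rw [div_lt_div_iff₀ hR0 (by norm_num)]
        linarith
      calc |(Q : ℝ) * (q * P.coeff d - a) - q * Q * (P.coeff d - r)| ≤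
          |(Q : ℝ) * (q * P.coeff d - a)| + |(q : ℝ) * Q * (P.coeff d - r)| := abs_sub _ _
        _ < 1 := by linarith
    have hz : (q : ℤ) * r.num - a * Q = 0 := by
      have h1 : |(q : ℤ) * r.num - a * Q| < 1 := by exact_mod_cast hint
      exact Int.abs_lt_one_iff.mp h1
    have hdvd : Q ∣ q := by
      have h1 : (Q : ℤ) ∣ q * r.num := ⟨a, by linarith⟩
      have h2 : IsCoprime (Q : ℤ) r.num := by
        rw [Int.isCoprime_iff_gcd_eq_one]
        have h3 := r.reduced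
        rw [Int.gcd_comm]
        unfold Int.gcd
        rw [Int.natAbs_natCast]
        exact h3
      have h3 := h2.dvd_of_dvd_mul_right h1
      exact_mod_cast h3
    have hle : Q ≤ q := Nat.le_of_dvd hq1 hdvd
    have hleR : (Q : ℝ) ≤ q := by exact_mod_cast hle
    have h1 : R ^ 2 ≤ C * R := by
      rw [hRR]
      linarith
    have h2 : R ≤ C := by
      have : R * R ≤ C * R := by
        rw [← pow_two]
        exact h1
      exact le_of_mul_le_mul_right this hR0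
    have h3 : R ^ 2 ≤ C ^ 2 := pow_le_pow_left₀ hR0.le h2 2
    rw [hRR] at h3
    have : 0 < C ^ 2 := by positivity
    linarith
  · have hsub : Good k M P X ε ⊆ Near k M P δ := by
      intro n hn
      obtain ⟨h1, h2, h3, h4, m, h5⟩ := hn
      refine ⟨h2, h3, h4, m, lt_of_lt_of_le h5 ?_⟩
      have h6 : (0 : ℝ) < n := by
        have : 0 < n := Nat.pos_of_ne_zero h2.ne_zero
        exact_mod_cast this
      rw [hε]
      exact Real.rpow_le_rpow_of_nonpos h6 h1 (by linarith)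
    have h1 : ((Good k M P X ε).ncard : ℝ) ≤ s := by
      rw [hs]
      exact_mod_cast Set.ncard_le_ncard hsub hfin
    have h2 : c * R ^ (1 / 2 : ℝ) ≤ c * ε * X ^ (1 / 2 - 1 / 8 : ℝ) := by
      rw [mul_assoc]
      apply mul_le_mul_of_nonneg_left _ hc.le
      rw [hε, ← Real.rpow_add hX0]
      calc R ^ (1 / 2 : ℝ) = X ^ (1 / 8 : ℝ) := by
            rw [hX, ← Real.rpow_natCast, ← Real.rpow_mul hR0.le]
            norm_num
        _ ≤ X ^ (-δ + (1 / 2 - 1 / 8) : ℝ) := by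
            apply Real.rpow_le_rpow_of_exponent_le hX1
            linarith
    have h3 : R ^ (1 / 2 : ℝ) ≤ s / c := by
      rw [le_div_iff₀ hc]
      linarith
    have h4 : (R ^ (1 / 2 : ℝ)) ^ 4 ≤ (s / c) ^ 4 :=
      pow_le_pow_left₀ (Real.rpow_nonneg hR0.le _) h3 4
    have h5 : (R ^ (1 / 2 : ℝ)) ^ 4 = Q := by
      rw [← hRR, ← Real.rpow_natCast, ← Real.rpow_mul hR0.le, ← Real.rpow_natCast]
      norm_num
    rw [h5] at h4
    linarith

end Pool.Agent.Q250.CB
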