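import Pool.Agent.Q250.CB.Irr

set_option autoImplicit false

/-! # Polynomials with an irrational coefficient -/

namespace Pool.Agent.Q250.CB

open Finset Polynomial
open Pool.Agent.Q148.CN (Cong)

/-- rational terms of the polynomial are constant modulo one on a residue class -/
lemma rational_part (P : ℝ[X]) (i d : ℕ) (h : ∀ j ∈ Ioc i d, ¬ Irrational (P.coeff j)) :
    ∃ q : ℕ, 0 < q ∧ ∀ n k : ℕ, n ≡ k [MOD q] →
      ∃ z : ℤ, (∑ j ∈ Ioc i d, P.coeff j * (n : ℝ) ^ j) = (∑ j ∈ Ioc i d, P.coeff j * (k : ℝ) ^ j) + z := by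
  have hr : ∀ j : ℕ, ∃ r : ℚ, j ∈ Ioc i d → (r : ℝ) = P.coeff j := by
    intro j
    by_cases hj : j ∈ Ioc i d
    · have h1 := h j hj
      unfold Irrational at h1
      push Not at h1
      obtain ⟨r, hr⟩ := h1
      exact ⟨r, fun _ => hr⟩
    · exact ⟨0, fun h' => absurd h' hj⟩
  choose r hr using hr
  refine ⟨∏ j ∈ Ioc i d, (r j).den, Finset.prod_pos (fun j _ => (r j).den_pos), ?_⟩
  intro n k hnk
  have hz : ∀ j : ℕ, ∃ z : ℤ, j ∈ Ioc i d → P.coeff j * (n : ℝ) ^ j - P.coeff j * (k : ℝ) ^ j = z := by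
    intro j
    by_cases hj : j ∈ Ioc i d
    · have h1 : (r j).den ∣ ∏ j ∈ Ioc i d, (r j).den := Finset.dvd_prod_of_mem _ hj
      have h2 : n ≡ k [MOD (r j).den] := hnk.of_dvd h1
      have h3 : (((r j).den : ℕ) : ℤ) ∣ (n : ℤ) ^ j - (k : ℤ) ^ j := by
        have h4 : (((r j).den : ℕ) : ℤ) ∣ (n : ℤ) - k := (Nat.modEq_iff_dvd.mp h2.symm)
        exact h4.trans (sub_dvd_pow_sub_pow _ _ _)
      obtain ⟨w, hw⟩ := h3
      refine ⟨(r j).num * w, fun _ => ?_⟩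
      rw [← hr j hj]
      have h5 : (n : ℝ) ^ j - (k : ℝ) ^ j = (r j).den * w := by exact_mod_cast hw
      have h6 : ((r j : ℚ) : ℝ) = (r j).num / (r j).den := Rat.cast_def _
      have h7 : ((r j).den : ℝ) ≠ 0 := by exact_mod_cast (r j).den_nz
      rw [← mul_sub, h5, h6]
      push_cast
      field_simp
    · exact ⟨0, fun h' => absurd h' hj⟩
  choose z hz using hz
  refine ⟨∑ j ∈ Ioc i d, z j, ?_⟩
  have h1 : (∑ j ∈ Ioc i d, P.coeff j * (n : ℝ) ^ j) - (∑ j ∈ Ioc i d, P.coeff j * (k : ℝ) ^ j) =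
      ((∑ j ∈ Ioc i d, z j : ℤ) : ℝ) := by
    rw [← Finset.sum_sub_distrib, Int.cast_sum]
    exact Finset.sum_congr rfl (fun j hj => hz j hj)
  linarith

/-- The infinite version for all polynomials with an irrational coefficient of positive degree, from
the version for the leading coefficient. -/
theorem near_all (d : ℕ) (hd : 1 ≤ d)
    (H : ∀ i : ℕ, 1 ≤ i → ∃ δ : ℝ, 0 < δ ∧ ∀ M : ℕ, 0 < M → ∀ k : ℕ, Squarefree k → ∀ P : ℝ[X],
      P.natDegree ≤ i → Irrational (P.coeff i) → (Near k M P δ).Infinite) :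
    ∃ δ : ℝ, 0 < δ ∧ ∀ M : ℕ, 0 < M → ∀ k : ℕ, Squarefree k → ∀ P : ℝ[X],
      P.natDegree ≤ d → (∃ i, 1 ≤ i ∧ Irrational (P.coeff i)) → (Near k M P δ).Infinite := by
  classical
  have H' : ∀ i : ℕ, ∃ δ : ℝ, 0 < δ ∧ (1 ≤ i → ∀ M : ℕ, 0 < M → ∀ k : ℕ, Squarefree k → ∀ P : ℝ[X],
      P.natDegree ≤ i → Irrational (P.coeff i) → (Near k M P δ).Infinite) := by
    intro i
    by_cases hi : 1 ≤ i
    · obtain ⟨δ, h1, h2⟩ := H i hi
      exact ⟨δ, h1, fun _ => h2⟩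
    · exact ⟨1, one_pos, fun h => absurd h hi⟩
  choose g hg0 hg using H'
  have hne : (Icc 1 d).Nonempty := ⟨1, by rw [Finset.mem_Icc]; omega⟩
  refine ⟨(Icc 1 d).inf' hne g, ?_, ?_⟩
  · rw [Finset.lt_inf'_iff]
    intro i _
    exact hg0 i
  intro M hM k hk P hP ⟨i0, hi0, hirr0⟩
  have hi0d : i0 ≤ d := by
    by_contra hcon
    push Not at hcon
    rw [coeff_eq_zero_of_natDegree_lt (by omega)] at hirr0
    exact hirr0 ⟨0, by simp⟩
  set S : Finset ℕ := (Icc 1 d).filter (fun i => Irrational (P.coeff i)) with hS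
  have hSne : S.Nonempty := ⟨i0, by rw [hS, Finset.mem_filter, Finset.mem_Icc]; exact ⟨⟨hi0, hi0d⟩, hirr0⟩⟩
  set i := S.max' hSne with hi
  have hiS : i ∈ S := S.max'_mem hSne
  rw [hS, Finset.mem_filter, Finset.mem_Icc] at hiS
  obtain ⟨⟨hi1, hid⟩, hirr⟩ := hiS
  have hhigh : ∀ j ∈ Ioc i d, ¬ Irrational (P.coeff j) := by
    intro j hj hcon
    rw [Finset.mem_Ioc] at hj
    have : j ≤ i := by
      apply S.le_max'
      rw [hS, Finset.mem_filter, Finset.mem_Icc]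
      exact ⟨⟨by omega, hj.2⟩, hcon⟩
    omega
  obtain ⟨q, hq0, hq⟩ := rational_part P i d hhigh
  set h0 : ℝ := ∑ j ∈ Ioc i d, P.coeff j * (k : ℝ) ^ j with hh0
  set Hh : ℝ[X] := ∑ j ∈ Ioc i d, monomial j (P.coeff j) with hHh
  have hHc : ∀ n, Hh.coeff n = if n ∈ Ioc i d then P.coeff n else 0 := by
    intro n
    rw [hHh, finsetSum_coeff]
    simp only [coeff_monomial]
    rw [Finset.sum_ite_eq']
  have hHe : ∀ x : ℝ, Hh.eval x = ∑ j ∈ Ioc i d, P.coeff j * x ^ j := by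
    intro x
    rw [hHh, eval_finsetSum]
    apply Finset.sum_congr rfl
    intro j _
    rw [eval_monomial]
  set P' : ℝ[X] := P - Hh + C h0 with hP'
  have hdeg : P'.natDegree ≤ i := by
    rw [natDegree_le_iff_coeff_eq_zero]
    intro j hj
    rw [hP', coeff_add, coeff_sub, hHc, coeff_C, if_neg (by omega : j ≠ 0)]
    by_cases hjd : j ≤ d
    · rw [if_pos (by rw [Finset.mem_Ioc]; omega)]
      ring
    · rw [if_neg (by rw [Finset.mem_Ioc]; omega), coeff_eq_zero_of_natDegree_lt (by omega)]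
      ring
  have hcoef : P'.coeff i = P.coeff i := by
    rw [hP', coeff_add, coeff_sub, hHc, coeff_C, if_neg (by omega : i ≠ 0),
      if_neg (by rw [Finset.mem_Ioc]; omega)]
    ring
  have hinf := hg i hi1 (q * M) (by positivity) k hk P' hdeg (by rw [hcoef]; exact hirr)
  apply hinf.mono
  intro n hn
  obtain ⟨h1, h2, h3, m, h4⟩ := hn
  obtain ⟨z, hz⟩ := hq n k (h2.of_dvd (Dvd.intro M rfl))
  refine ⟨h1, h2.of_dvd (Dvd.intro_left q rfl), h3, m + z, ?_⟩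
  have h5 : P.eval (n : ℝ) - ((m + z : ℤ) : ℝ) = P'.eval (n : ℝ) - m := by
    rw [hP', eval_add, eval_sub, eval_C, hHe, hz]
    push_cast
    ring
  rw [h5]
  refine h4.trans_le ?_
  have h6 : (1 : ℝ) ≤ n := by
    have : 1 ≤ n := Nat.one_le_iff_ne_zero.mpr h1.ne_zero
    exact_mod_cast this
  apply Real.rpow_le_rpow_of_exponent_le h6
  have h7 : (Icc 1 d).inf' hne g ≤ g i := Finset.inf'_le g (by rw [Finset.mem_Icc]; exact ⟨hi1, hid⟩)
  linarith

end Pool.Agent.Q250.CB
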