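import Pool.Agent.Q250.CB.Sieve2

set_option autoImplicit false

/-! # The dichotomy for one value of the parameter `t` -/

namespace Pool.Agent.Q250.CB

open Finset Polynomial
open Pool.Agent.Q148.CN (ex Dk BadP)

open Classical in
lemma one_t0 (d : ℕ) (hd : 1 ≤ d) : ∃ c m : ℕ, 1 ≤ c ∧ ∀ (B W t N L : ℕ) (P : ℝ[X]),
    P.natDegree ≤ d → 1 ≤ B → 2 ≤ L → 1 ≤ W → (∀ p : ℕ, p.Prime → p ≤ 960 → p ∣ W) → t.Prime →
    320 * L ≤ t → 921600 * W * L ^ 2 ≤ N → B * W * t ^ 2 ≤ N →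
    (∃ q : ℕ, 1 ≤ q ∧ (q : ℝ) ≤ c * (88 * L : ℝ) ^ m *
        ((3 * d).factorial * (2 * L) * (B * ((W * (480 * L) ^ 2 : ℕ) : ℝ) ^ 3) ^ d) ∧
      ∃ a : ℤ, |q * P.coeff d - a| ≤
        c * (88 * L : ℝ) ^ m * ((2 * (480 * L) ^ 2 : ℕ) : ℝ) ^ (3 * d) / (N : ℝ) ^ (3 * d)) ∨
    (N : ℝ) / (60 * L) ≤
      #((range N).filter (fun j => ¬ BadP B W (uj B W t j) t ∧
        ∃ k : ℤ, |P.eval (nj B W t j) - k| < 1 / L)) := by
  obtain ⟨c, m, hc, hkey⟩ := key d hd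
  refine ⟨c, m, hc, ?_⟩
  intro B W t N L P hP hB hL hW hWp ht htL hN1 hN2
  have hL0 : (0 : ℝ) < L := by
    have : 0 < L := by omega
    exact_mod_cast this
  have hL1 : (1 : ℝ) ≤ L := by
    have : 1 ≤ L := by omega
    exact_mod_cast this
  have hNpos : 0 < N := by
    have h1 : 0 < W * L ^ 2 := by positivity
    nlinarith
  have hN0 : (0 : ℝ) < N := by exact_mod_cast hNpos
  by_cases H : ∀ s : ℕ, 1 ≤ s → s ≤ (480 * L) ^ 2 → ∀ r N' : ℕ, N ≤ 2 * s * N' → ∀ k : ℤ, k ≠ 0 →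
      |k| ≤ 2 * L → ‖∑ i ∈ range N', ex (k * P.eval (nj B W t (r + s * i)))‖ ≤ N' / (88 * L)
  · right
    exact main_count B W t N L (fun j => P.eval (nj B W t j)) hL hW hWp ht htL hN1 hN2 H
  · left
    push Not at H
    obtain ⟨s, hs1, hs2, r, N', hN', k, hk0, hk, hlt⟩ := H
    have hN'0 : 1 ≤ N' := by
      rcases Nat.eq_zero_or_pos N' with h0 | h0
      · rw [h0] at hN'
        omega
      · exact h0
    have hN'R : (0 : ℝ) < N' := by exact_mod_cast hN'0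
    obtain ⟨q, hq1, hq2, a, ha⟩ := hkey B W t r s N' k P (88 * L) hB hW hs1 hN'0 hk0 hP (by linarith)
      (by
        rw [div_lt_iff₀ (by positivity)] at hlt
        linarith)
    have hkR : |(k : ℝ)| ≤ 2 * L := by
      have : ((|k| : ℤ) : ℝ) ≤ ((2 * L : ℤ) : ℝ) := by exact_mod_cast hk
      push_cast at this
      exact this
    have hsR : ((W * s : ℕ) : ℝ) ≤ ((W * (480 * L) ^ 2 : ℕ) : ℝ) := by
      have : W * s ≤ W * (480 * L) ^ 2 := Nat.mul_le_mul_left _ hs2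
      exact_mod_cast this
    refine ⟨q, hq1, hq2.trans ?_, a, ha.trans ?_⟩
    · gcongr
    · rw [div_le_div_iff₀ (by positivity) (by positivity)]
      have h1 : N ≤ N' * (2 * (480 * L) ^ 2) := by
        calc N ≤ 2 * s * N' := hN'
          _ ≤ 2 * (480 * L) ^ 2 * N' := by gcongr
          _ = N' * (2 * (480 * L) ^ 2) := by ring
      have h2 : (N : ℝ) ≤ N' * ((2 * (480 * L) ^ 2 : ℕ) : ℝ) := by exact_mod_cast h1
      have h3 : (N : ℝ) ^ (3 * d) ≤ (N' * ((2 * (480 * L) ^ 2 : ℕ) : ℝ)) ^ (3 * d) :=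
        pow_le_pow_left₀ hN0.le h2 _
      rw [mul_pow] at h3
      calc (c : ℝ) * (88 * L : ℝ) ^ m * (N : ℝ) ^ (3 * d) ≤
          c * (88 * L : ℝ) ^ m * ((N' : ℝ) ^ (3 * d) * ((2 * (480 * L) ^ 2 : ℕ) : ℝ) ^ (3 * d)) :=
            mul_le_mul_of_nonneg_left h3 (by positivity)
        _ = _ := by ring

open Classical in
/-- **The dichotomy for one `t`.** -/
lemma one_t (d : ℕ) (hd : 1 ≤ d) : ∃ A : ℕ, ∀ B W : ℕ, 1 ≤ B → 1 ≤ W →
    (∀ p : ℕ, p.Prime → p ≤ 960 → p ∣ W) → ∃ C : ℝ, 1 ≤ C ∧ ∀ (t N L : ℕ) (P : ℝ[X]),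
    P.natDegree ≤ d → 2 ≤ L → t.Prime → 320 * L ≤ t → 921600 * W * L ^ 2 ≤ N → B * W * t ^ 2 ≤ N →
    (∃ q : ℕ, 1 ≤ q ∧ (q : ℝ) ≤ C * (L : ℝ) ^ A ∧
      ∃ a : ℤ, |q * P.coeff d - a| ≤ C * (L : ℝ) ^ A / (N : ℝ) ^ (3 * d)) ∨
    (N : ℝ) / (60 * L) ≤
      #((range N).filter (fun j => ¬ BadP B W (uj B W t j) t ∧
        ∃ k : ℤ, |P.eval (nj B W t j) - k| < 1 / L)) := by
  obtain ⟨c, m, hc, H⟩ := one_t0 d hd
  refine ⟨m + 6 * d + 1, ?_⟩
  intro B W hB hW hWp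
  have hcR : (1 : ℝ) ≤ c := by exact_mod_cast hc
  set C1 : ℝ := c * 88 ^ m * ((3 * d).factorial * 2 * (B * (W * 480 ^ 2) ^ 3) ^ d) with hC1
  set C2 : ℝ := c * 88 ^ m * (2 * 480 ^ 2) ^ (3 * d) with hC2
  have hC10 : 0 ≤ C1 := by rw [hC1]; positivity
  have hC20 : 0 ≤ C2 := by rw [hC2]; positivity
  refine ⟨C1 + C2 + 1, by linarith, ?_⟩
  intro t N L P hP hL ht htL hN1 hN2
  have hL0 : (0 : ℝ) < L := by
    have : 0 < L := by omega
    exact_mod_cast this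
  have hL1 : (1 : ℝ) ≤ L := by
    have : 1 ≤ L := by omega
    exact_mod_cast this
  rcases H B W t N L P hP hB hL hW hWp ht htL hN1 hN2 with ⟨q, hq1, hq2, a, ha⟩ | h
  · left
    refine ⟨q, hq1, hq2.trans ?_, a, ha.trans ?_⟩
    · have h1 : (c : ℝ) * (88 * L : ℝ) ^ m *
          ((3 * d).factorial * (2 * L) * (B * ((W * (480 * L) ^ 2 : ℕ) : ℝ) ^ 3) ^ d) =
          C1 * (L : ℝ) ^ (m + 6 * d + 1) := by
        rw [hC1]
        push_cast
        have e1 : ((B : ℝ) * (W * (480 * (L : ℝ)) ^ 2) ^ 3) ^ d =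
            (B * (W * 480 ^ 2) ^ 3) ^ d * (L : ℝ) ^ (6 * d) := by
          rw [pow_mul, ← mul_pow]
          congr 1
          ring
        rw [e1, pow_add, pow_add, mul_pow]
        ring
      rw [h1]
      apply mul_le_mul_of_nonneg_right _ (by positivity)
      linarith
    · apply div_le_div_of_nonneg_right _ (by positivity)
      have h1 : (c : ℝ) * (88 * L : ℝ) ^ m * ((2 * (480 * L) ^ 2 : ℕ) : ℝ) ^ (3 * d) =
          C2 * (L : ℝ) ^ (m + 6 * d) := by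
        rw [hC2]
        push_cast
        have e1 : ((2 : ℝ) * (480 * (L : ℝ)) ^ 2) ^ (3 * d) =
            (2 * 480 ^ 2) ^ (3 * d) * (L : ℝ) ^ (6 * d) := by
          rw [show 6 * d = 2 * (3 * d) by ring, pow_mul (L : ℝ), ← mul_pow]
          congr 1
          ring
        rw [e1, pow_add, mul_pow]
        ring
      rw [h1]
      calc C2 * (L : ℝ) ^ (m + 6 * d) ≤ C2 * (L : ℝ) ^ (m + 6 * d + 1) := by
            exact mul_le_mul_of_nonneg_left (pow_le_pow_right₀ hL1 (by omega)) hC20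
        _ ≤ (C1 + C2 + 1) * (L : ℝ) ^ (m + 6 * d + 1) := by
            apply mul_le_mul_of_nonneg_right _ (by positivity)
            linarith
  · exact Or.inr h

end Pool.Agent.Q250.CB
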