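import Pool.Agent.H373R2.NB.Weyl
import Pool.Agent.Q148.CN.Arith

set_option autoImplicit false

/-! # Polynomial phases along the family `n = B u (u ^ 2 - v ^ 2)` -/

namespace Pool.Agent.Q250.CB

open Finset Polynomial
open Pool.Agent.H373R2.NB (Ph IW IW_all)
open Pool.Agent.Helper602.MK (ee)
open Pool.Agent.Q148.CN (ex vv)

lemma Ph_real (D : ℕ) : ∀ f : ℝ[X], f.natDegree ≤ D →
    Ph D ((D.factorial : ℝ) * f.coeff D) (fun n => f.eval (n : ℝ)) := by
  induction D with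
  | zero =>
    intro f hf n
    have h1 : f = C (f.coeff 0) := eq_C_of_natDegree_le_zero hf
    have h2 : f.eval (n : ℝ) = f.coeff 0 := by
      conv_lhs => rw [h1]
      rw [eval_C]
    show f.eval (n : ℝ) = _
    rw [h2]; simp
  | succ d ih =>
    intro f hf h
    set g : ℝ[X] := taylor (h : ℝ) f - f with hg
    have hcoef : ∀ j, d ≤ j → (taylor (h : ℝ) f).coeff j = f.coeff j + (if j = d then ((d : ℝ) + 1) * f.coeff (d + 1) * h else 0) := by
      intro j hj
      rw [taylor_coeff]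
      have h1 : (hasseDeriv j f).natDegree < 2 := by
        have := natDegree_hasseDeriv_le f j
        omega
      rw [eval_eq_sum_range' h1, sum_range_succ, sum_range_succ, sum_range_zero, hasseDeriv_coeff, hasseDeriv_coeff]
      rcases eq_or_ne j d with h2 | h2
      · subst h2
        rw [if_pos rfl, zero_add, zero_add, Nat.choose_self, add_comm 1 j, Nat.choose_succ_self_right]
        push_cast
        ring
      · rw [if_neg h2]
        have h3 : f.coeff (1 + j) = 0 := coeff_eq_zero_of_natDegree_lt (by omega)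
        rw [h3, zero_add, zero_add, Nat.choose_self]
        push_cast
        ring
    have hgd : g.natDegree ≤ d := by
      rw [natDegree_le_iff_coeff_eq_zero]
      intro j hj
      rw [hg, coeff_sub, hcoef j (by omega), if_neg (by omega)]
      ring
    have hgc : g.coeff d = ((d : ℝ) + 1) * f.coeff (d + 1) * h := by
      rw [hg, coeff_sub, hcoef d le_rfl, if_pos rfl]; ring
    have h1 := ih g hgd
    have h2 : (fun n : ℕ => g.eval (n : ℝ)) = fun n : ℕ =>
        f.eval ((n + h : ℕ) : ℝ) - f.eval (n : ℝ) := by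
      funext n
      rw [hg, eval_sub, taylor_eval]
      push_cast
      ring_nf
    have h3 : (d.factorial : ℝ) * g.coeff d = (h : ℝ) * (((d + 1).factorial : ℝ) * f.coeff (d + 1)) := by
      rw [hgc, Nat.factorial_succ]; push_cast; ring
    rw [h2, h3] at h1
    exact h1

lemma weyl_real (D : ℕ) (hD : 1 ≤ D) : ∃ c m : ℕ, 1 ≤ c ∧ ∀ (N : ℕ) (u : ℝ) (F : ℝ[X]), 1 ≤ N → 1 ≤ u →
    F.natDegree ≤ D → (N : ℝ) ≤ u * ‖∑ n ∈ range N, ex (F.eval (n : ℝ))‖ →
    ∃ q : ℕ, 1 ≤ q ∧ (q : ℝ) ≤ c * u ^ m ∧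
      ∃ a : ℤ, |q * ((D.factorial : ℝ) * F.coeff D) - a| ≤ c * u ^ m / (N : ℝ) ^ D := by
  obtain ⟨c, m, hc, h⟩ := IW_all D hD
  refine ⟨c, m, hc, ?_⟩
  intro N u F hN hu hF hS
  exact h N u _ _ hN hu (Ph_real D F hF) hS

/-- the elements of the family, as functions of the index `j` -/
def uj (B W t j : ℕ) : ℕ := 1 + W * (j + B * W * t ^ 2)

/-- the values of the family -/
noncomputable def nj (B W t j : ℕ) : ℝ := B * ((uj B W t j : ℝ) ^ 3 - (vv B W t) ^ 2 * uj B W t j)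

/-- the linear polynomial of an arithmetic progression of indices -/
noncomputable def LQ (B W t r s : ℕ) : ℝ[X] :=
  C ((W * s : ℕ) : ℝ) * X + C ((1 + W * (r + B * W * t ^ 2) : ℕ) : ℝ)

/-- the cubic polynomial along an arithmetic progression of indices -/
noncomputable def FQ (B W t r s : ℕ) : ℝ[X] :=
  C (B : ℝ) * (LQ B W t r s ^ 3 - C ((vv B W t) ^ 2) * LQ B W t r s)

lemma FQ_eval (B W t r s i : ℕ) : (FQ B W t r s).eval (i : ℝ) = nj B W t (r + s * i) := by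
  unfold FQ LQ nj uj
  simp only [eval_mul, eval_C, eval_sub, eval_pow, eval_add, eval_X]
  have h : ((W * s : ℕ) : ℝ) * i + ((1 + W * (r + B * W * t ^ 2) : ℕ) : ℝ) =
      ((1 + W * ((r + s * i) + B * W * t ^ 2) : ℕ) : ℝ) := by
    push_cast
    ring
  rw [h]

lemma LQ_deg (B W t r s : ℕ) (hW : 1 ≤ W) (hs : 1 ≤ s) : (LQ B W t r s).natDegree = 1 := by
  have h : ((W * s : ℕ) : ℝ) ≠ 0 := by
    have : W * s ≠ 0 := by positivity
    exact_mod_cast this
  exact natDegree_linear h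

lemma LQ_lead (B W t r s : ℕ) (hW : 1 ≤ W) (hs : 1 ≤ s) :
    (LQ B W t r s).leadingCoeff = ((W * s : ℕ) : ℝ) := by
  have h : ((W * s : ℕ) : ℝ) ≠ 0 := by
    have : W * s ≠ 0 := by positivity
    exact_mod_cast this
  exact leadingCoeff_linear h

lemma FQ_core (B W t r s : ℕ) (hW : 1 ≤ W) (hs : 1 ≤ s) :
    (LQ B W t r s ^ 3 - C ((vv B W t) ^ 2) * LQ B W t r s).natDegree = 3 ∧
    (LQ B W t r s ^ 3 - C ((vv B W t) ^ 2) * LQ B W t r s).leadingCoeff = ((W * s : ℕ) : ℝ) ^ 3 := by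
  have h1 := LQ_deg B W t r s hW hs
  have h2 : (LQ B W t r s ^ 3).natDegree = 3 := by
    rw [natDegree_pow, h1]
  have h3 : (C ((vv B W t) ^ 2) * LQ B W t r s).natDegree ≤ 1 := by
    refine (natDegree_C_mul_le _ _).trans h1.le
  constructor
  · rw [natDegree_sub_eq_left_of_natDegree_lt (by omega), h2]
  · rw [leadingCoeff_sub_of_degree_lt ?_, leadingCoeff_pow, LQ_lead B W t r s hW hs]
    apply degree_lt_degree
    omega

lemma FQ_deg (B W t r s : ℕ) (hB : 1 ≤ B) (hW : 1 ≤ W) (hs : 1 ≤ s) :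
    (FQ B W t r s).natDegree = 3 ∧ (FQ B W t r s).leadingCoeff = B * ((W * s : ℕ) : ℝ) ^ 3 := by
  obtain ⟨h1, h2⟩ := FQ_core B W t r s hW hs
  have hB0 : (B : ℝ) ≠ 0 := by
    have : B ≠ 0 := by omega
    exact_mod_cast this
  unfold FQ
  constructor
  · rw [natDegree_C_mul hB0, h1]
  · rw [leadingCoeff_mul, leadingCoeff_C, h2]

lemma comp_deg (P Q : ℝ[X]) (d : ℕ) (hP : P.natDegree ≤ d) (hQ : Q.natDegree = 3) :
    (P.comp Q).natDegree ≤ 3 * d := by
  rw [natDegree_comp, hQ]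
  omega

lemma comp_coeff (P Q : ℝ[X]) (d : ℕ) (hP : P.natDegree ≤ d) (hQ : Q.natDegree = 3) :
    (P.comp Q).coeff (3 * d) = P.coeff d * Q.leadingCoeff ^ d := by
  rcases hP.lt_or_eq with h | h
  · rw [coeff_eq_zero_of_natDegree_lt h, zero_mul]
    apply coeff_eq_zero_of_natDegree_lt
    rw [natDegree_comp, hQ]
    omega
  · have h1 := coeff_comp_degree_mul_degree (p := P) (q := Q) (by omega)
    rw [hQ, h, mul_comm d 3] at h1
    rw [h1]
    unfold leadingCoeff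
    rw [h]

/-- **The inverse theorem along the family.** -/
lemma key (d : ℕ) (hd : 1 ≤ d) : ∃ c m : ℕ, 1 ≤ c ∧ ∀ (B W t r s N : ℕ) (h : ℤ) (P : ℝ[X]) (K : ℝ),
    1 ≤ B → 1 ≤ W → 1 ≤ s → 1 ≤ N → h ≠ 0 → P.natDegree ≤ d → 1 ≤ K →
    (N : ℝ) ≤ K * ‖∑ i ∈ range N, ex (h * P.eval (nj B W t (r + s * i)))‖ →
    ∃ q : ℕ, 1 ≤ q ∧ (q : ℝ) ≤ c * K ^ m * ((3 * d).factorial * |(h : ℝ)| * (B * ((W * s : ℕ) : ℝ) ^ 3) ^ d) ∧
      ∃ a : ℤ, |q * P.coeff d - a| ≤ c * K ^ m / (N : ℝ) ^ (3 * d) := by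
  obtain ⟨c, m, hc, H⟩ := weyl_real (3 * d) (by omega)
  refine ⟨c, m, hc, ?_⟩
  intro B W t r s N h P K hB hW hs hN hh hP hK hS
  obtain ⟨hd3, hlc⟩ := FQ_deg B W t r s hB hW hs
  set F : ℝ[X] := C (h : ℝ) * P.comp (FQ B W t r s) with hF
  have hFd : F.natDegree ≤ 3 * d := (natDegree_C_mul_le _ _).trans (comp_deg P _ d hP hd3)
  have hFc : F.coeff (3 * d) = h * (P.coeff d * (B * ((W * s : ℕ) : ℝ) ^ 3) ^ d) := by
    rw [hF, coeff_C_mul, comp_coeff P _ d hP hd3, hlc]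
  have hFe : ∀ i : ℕ, F.eval (i : ℝ) = h * P.eval (nj B W t (r + s * i)) := by
    intro i
    rw [hF, eval_mul, eval_C, eval_comp, FQ_eval]
  obtain ⟨q, hq1, hq2, a, ha⟩ := H N K F hN hK hFd (by simpa only [hFe] using hS)
  have hWs : 0 < W * s := by positivity
  have hna : 0 < h.natAbs := Int.natAbs_pos.mpr hh
  have hcast : ((h.natAbs : ℕ) : ℝ) = |(h : ℝ)| := by
    rw [Nat.cast_natAbs]
    push_cast
    rfl
  refine ⟨q * ((3 * d).factorial * h.natAbs * (B * (W * s) ^ 3) ^ d), ?_, ?_, ?_⟩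
  · have : 0 < (3 * d).factorial := Nat.factorial_pos _
    have h2 : 0 < B := hB
    have h3 : 0 < (B * (W * s) ^ 3) ^ d := by positivity
    exact Nat.one_le_iff_ne_zero.mpr (by positivity)
  · have h2 : ((q * ((3 * d).factorial * h.natAbs * (B * (W * s) ^ 3) ^ d) : ℕ) : ℝ) =
        q * ((3 * d).factorial * |(h : ℝ)| * (B * ((W * s : ℕ) : ℝ) ^ 3) ^ d) := by
      push_cast [hcast]
      ring
    rw [h2]
    apply mul_le_mul_of_nonneg_right hq2
    positivity
  · have h2 : ((q * ((3 * d).factorial * h.natAbs * (B * (W * s) ^ 3) ^ d) : ℕ) : ℝ) =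
        q * ((3 * d).factorial * |(h : ℝ)| * (B * ((W * s : ℕ) : ℝ) ^ 3) ^ d) := by
      push_cast [hcast]
      ring
    rw [h2]
    rw [hFc] at ha
    rcases abs_cases (h : ℝ) with ⟨h3, -⟩ | ⟨h3, -⟩
    · refine ⟨a, ?_⟩
      rw [h3]
      convert ha using 2
      ring
    · refine ⟨-a, ?_⟩
      rw [h3]
      rw [← abs_neg] at ha
      convert ha using 2
      push_cast
      ring

end Pool.Agent.Q250.CB
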