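import Pool.Agent.Q250.CB.Count

set_option autoImplicit false

/-! # The sieve for the squarefree values -/

namespace Pool.Agent.Q250.CB

open Finset
open Pool.Agent.Q148.CN (ex Dk BadP cop sum_inv_sq)

lemma uj_mod (B W t j : ℕ) : uj B W t j ≡ 1 [MOD W] := by
  unfold uj
  rw [Nat.ModEq, Nat.add_mul_mod_self_left]

/-- the indices with `s ∣ u_j - e` -/
def As (B W t N s : ℕ) (e : ℤ) : Finset ℕ := (range N).filter (fun j => (s : ℤ) ∣ (uj B W t j : ℤ) - e)

lemma As_form (B W t N s : ℕ) (e : ℤ) (hs : 1 ≤ s) (he : (W : ℤ) ∣ e) :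
    As B W t N s e = ∅ ∨ ∃ r N' : ℕ, r < s ∧ (∀ i, i < N' ↔ r + s * i < N) ∧
      As B W t N s e = (range N').image (fun i => r + s * i) := by
  rcases (As B W t N s e).eq_empty_or_nonempty with h0 | hne
  · exact Or.inl h0
  right
  set A := As B W t N s e with hA
  have hmem : ∀ j, j ∈ A ↔ j < N ∧ (s : ℤ) ∣ (uj B W t j : ℤ) - e := by
    intro j
    rw [hA, As, Finset.mem_filter, Finset.mem_range]
  set r := A.min' hne with hr
  have hrA : r ∈ A := A.min'_mem hne
  obtain ⟨hrN, hrd⟩ := (hmem r).mp hrA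
  have hco : IsCoprime (W : ℤ) (s : ℤ) := cop W s (uj B W t r) e he (uj_mod B W t r) hrd
  have hdiff : ∀ j : ℕ, (uj B W t j : ℤ) - e = ((uj B W t r : ℤ) - e) + W * ((j : ℤ) - r) := by
    intro j
    unfold uj
    push_cast
    ring
  have hiff : ∀ j : ℕ, (s : ℤ) ∣ (uj B W t j : ℤ) - e ↔ (s : ℤ) ∣ (j : ℤ) - r := by
    intro j
    rw [hdiff j, dvd_add_right hrd]
    constructor
    · intro h
      exact hco.symm.dvd_of_dvd_mul_left h
    · intro h
      exact Dvd.dvd.mul_left h _
  have hrs : r < s := by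
    by_contra hcon
    push Not at hcon
    have h1 : r - s ∈ A := by
      rw [hmem]
      refine ⟨by omega, ?_⟩
      rw [hiff]
      refine ⟨-1, ?_⟩
      rw [Nat.cast_sub hcon]
      ring
    have h2 := A.min'_le _ h1
    omega
  refine ⟨r, (N - r + s - 1) / s, hrs, ?_, ?_⟩
  · intro i
    rw [← Nat.succ_le_iff, Nat.le_div_iff_mul_le (by omega), Nat.succ_mul, mul_comm i s]
    omega
  · ext j
    rw [hmem, Finset.mem_image]
    constructor
    · rintro ⟨h1, h2⟩
      have h3 : r ≤ j := by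
        apply A.min'_le
        rw [hmem]
        exact ⟨h1, h2⟩
      rw [hiff] at h2
      have h4 : s ∣ j - r := by
        have : (s : ℤ) ∣ ((j - r : ℕ) : ℤ) := by
          rw [Nat.cast_sub h3]
          exact h2
        exact_mod_cast this
      obtain ⟨i, hi⟩ := h4
      refine ⟨i, ?_, by omega⟩
      rw [Finset.mem_range, ← Nat.succ_le_iff, Nat.le_div_iff_mul_le (by omega), Nat.succ_mul,
        mul_comm i s]
      omega
    · rintro ⟨i, hi, rfl⟩
      rw [Finset.mem_range, ← Nat.succ_le_iff, Nat.le_div_iff_mul_le (by omega), Nat.succ_mul,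
        mul_comm i s] at hi
      refine ⟨by omega, ?_⟩
      rw [hiff]
      refine ⟨i, ?_⟩
      push_cast
      ring

/-- the number of indices in a class -/
lemma Nprime_bounds (N s r N' : ℕ) (hs : 1 ≤ s) (hr : r < s) (h : ∀ i, i < N' ↔ r + s * i < N) :
    (N' : ℝ) ≤ N / s + 1 ∧ (2 * s ≤ N → N ≤ 2 * s * N') := by
  have hs0 : (0 : ℝ) < s := by exact_mod_cast hs
  constructor
  · rcases Nat.eq_zero_or_pos N' with h0 | h0
    · rw [h0]
      push_cast
      positivity
    · have h1 := (h (N' - 1)).mp (by omega)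
      have h2 : s * (N' - 1) < N := by omega
      have h3 : (s : ℝ) * ((N' : ℝ) - 1) ≤ N := by
        have h4 : ((s * (N' - 1) : ℕ) : ℝ) ≤ N := by exact_mod_cast h2.le
        push_cast [Nat.cast_sub (by omega : 1 ≤ N')] at h4
        exact h4
      have h5 : (N' : ℝ) - 1 ≤ N / s := by
        rw [le_div_iff₀ hs0]
        linarith
      linarith
  · intro h2
    have h1 : ¬ (r + s * N' < N) := by
      rw [← h N']
      exact lt_irrefl _
    push Not at h1
    have h3 : N < s + s * N' := by omega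
    have h4 : 0 < N' := by
      rw [h 0]
      omega
    nlinarith

lemma As_card (B W t N s : ℕ) (e : ℤ) (hs : 1 ≤ s) (he : (W : ℤ) ∣ e) :
    (#(As B W t N s e) : ℝ) ≤ N / s + 1 := by
  rcases As_form B W t N s e hs he with h | ⟨r, N', hr, h, hA⟩
  · rw [h]
    simp only [Finset.card_empty, Nat.cast_zero]
    positivity
  · rw [hA]
    have h1 := (Nprime_bounds N s r N' hs hr h).1
    refine le_trans ?_ h1
    have h2 := Finset.card_image_le (s := range N') (f := fun i => r + s * i)
    rw [Finset.card_range] at h2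
    exact_mod_cast h2

lemma As_sum (B W t N s L : ℕ) (e : ℤ) (y : ℕ → ℝ) (hs : 1 ≤ s) (hL : 1 ≤ L) (he : (W : ℤ) ∣ e)
    (hsN : 2 * s ≤ N)
    (H : ∀ r N' : ℕ, N ≤ 2 * s * N' → ∀ k : ℤ, k ≠ 0 → |k| ≤ 2 * L →
      ‖∑ i ∈ range N', ex (k * y (r + s * i))‖ ≤ N' / (88 * L)) :
    ∑ j ∈ As B W t N s e, ‖Dk L (y j)‖ ^ 2 ≤ 4 * L * N / s := by
  have hL0 : (0 : ℝ) < L := by exact_mod_cast hL
  have hs0 : (0 : ℝ) < s := by exact_mod_cast hs
  rcases As_form B W t N s e hs he with h | ⟨r, N', hr, h, hA⟩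
  · rw [h, Finset.sum_empty]
    positivity
  · rw [hA]
    obtain ⟨h1, h2⟩ := Nprime_bounds N s r N' hs hr h
    have h3 := h2 hsN
    have hinj : ∀ a ∈ range N', ∀ b ∈ range N', r + s * a = r + s * b → a = b := by
      intro a _ b _ hab
      have : s * a = s * b := by omega
      exact Nat.eq_of_mul_eq_mul_left (by omega) this
    have h4 := sum_Dk_sq ((range N').image (fun i => r + s * i)) y L (N' / L) (by positivity)
      (by
        intro k hk0 hk
        rw [Finset.sum_image (fun a ha b hb hab => hinj a ha b hb hab)]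
        refine (H r N' h3 k hk0 (by omega)).trans ?_
        apply div_le_div_of_nonneg_left (Nat.cast_nonneg _) hL0
        linarith)
    have h5 : (#((range N').image (fun i => r + s * i)) : ℝ) ≤ N' := by
      have h2 := Finset.card_image_le (s := range N') (f := fun i => r + s * i)
      rw [Finset.card_range] at h2
      exact_mod_cast h2
    have h6 : (1 : ℝ) ≤ N / s := by
      rw [le_div_iff₀ hs0]
      have : s ≤ N := by omega
      rw [one_mul]
      exact_mod_cast this
    calc ∑ j ∈ (range N').image (fun i => r + s * i), ‖Dk L (y j)‖ ^ 2 ≤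
        L * #((range N').image (fun i => r + s * i)) + (L : ℝ) ^ 2 * (N' / L) := h4
      _ ≤ L * N' + (L : ℝ) ^ 2 * (N' / L) := by gcongr
      _ = 2 * L * N' := by field_simp; ring
      _ ≤ 2 * L * (N / s + 1) := by gcongr
      _ ≤ 2 * L * (N / s + N / s) := by gcongr
      _ = 4 * L * N / s := by ring

end Pool.Agent.Q250.CB
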