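import Pool.Agent.Q250.CB.Sieve

set_option autoImplicit false
set_option linter.constructorNameAsVariable false

/-! # The main counting lemma -/

namespace Pool.Agent.Q250.CB

open Finset
open Pool.Agent.Q148.CN (ex Dk BadP cop sum_inv_sq)

/-- the three shifts -/
def es (B W t : ℕ) (i : ℕ) : ℤ :=
  if i = 0 then 0 else if i = 1 then (B * W ^ 2 * t ^ 2 : ℤ) else -(B * W ^ 2 * t ^ 2 : ℤ)

lemma W_dvd_es (B W t i : ℕ) : (W : ℤ) ∣ es B W t i := by
  unfold es
  split_ifs
  · exact dvd_zero _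
  · exact ⟨B * W * t ^ 2, by ring⟩
  · exact ⟨-(B * W * t ^ 2), by ring⟩

lemma uj_le (B W t N j : ℕ) (hW : 1 ≤ W) (hj : j < N) (hN2 : B * W * t ^ 2 ≤ N) :
    uj B W t j ≤ 2 * W * N := by
  unfold uj
  have h1 : W * (j + 1) ≤ W * N := Nat.mul_le_mul_left _ (by omega)
  have h2 : W * (B * W * t ^ 2) ≤ W * N := Nat.mul_le_mul_left _ hN2
  nlinarith

lemma bad_le (B W t N j i p : ℕ) (hW : 1 ≤ W) (hj : j < N) (hN2 : B * W * t ^ 2 ≤ N)
    (h : ((p ^ 2 : ℕ) : ℤ) ∣ (uj B W t j : ℤ) - es B W t i) : p ^ 2 ≤ 4 * W * N := by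
  have h1 := uj_le B W t N j hW hj hN2
  have hv : B * W ^ 2 * t ^ 2 < uj B W t j := by
    unfold uj
    have : W * (j + B * W * t ^ 2) = W * j + B * W ^ 2 * t ^ 2 := by ring
    rw [this]
    have : 0 ≤ W * j := Nat.zero_le _
    omega
  have h2 : (0 : ℤ) < (uj B W t j : ℤ) - es B W t i ∧ (uj B W t j : ℤ) - es B W t i ≤ 4 * W * N := by
    have hv' : ((B : ℤ) * W ^ 2 * t ^ 2) < uj B W t j := by exact_mod_cast hv
    have h1' : (uj B W t j : ℤ) ≤ 2 * W * N := by exact_mod_cast h1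
    have hv0 : (0 : ℤ) ≤ (B : ℤ) * W ^ 2 * t ^ 2 := by positivity
    unfold es
    split_ifs
    · constructor <;> linarith
    · constructor <;> linarith
    · constructor <;> linarith
  have h3 := Int.le_of_dvd h2.1 h
  have h4 : ((p ^ 2 : ℕ) : ℤ) ≤ ((4 * W * N : ℕ) : ℤ) := by
    push_cast
    push_cast at h3
    linarith
  exact_mod_cast h4

open Classical in
lemma main_count (B W t N L : ℕ) (y : ℕ → ℝ) (hL : 2 ≤ L) (hW : 1 ≤ W)
    (hWp : ∀ p : ℕ, p.Prime → p ≤ 960 → p ∣ W) (ht : t.Prime) (htL : 320 * L ≤ t)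
    (hN1 : 921600 * W * L ^ 2 ≤ N) (hN2 : B * W * t ^ 2 ≤ N)
    (H : ∀ s : ℕ, 1 ≤ s → s ≤ (480 * L) ^ 2 → ∀ r N' : ℕ, N ≤ 2 * s * N' → ∀ k : ℤ, k ≠ 0 →
      |k| ≤ 2 * L → ‖∑ i ∈ range N', ex (k * y (r + s * i))‖ ≤ N' / (88 * L)) :
    (N : ℝ) / (60 * L) ≤
      #((range N).filter (fun j => ¬ BadP B W (uj B W t j) t ∧ ∃ k : ℤ, |y j - k| < 1 / L)) := by
  have hL0 : (0 : ℝ) < L := by
    have : 0 < L := by omega
    exact_mod_cast this
  have hL1 : 1 ≤ L := by omega
  have hWR : (1 : ℝ) ≤ W := by exact_mod_cast hW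
  have hN1R : 921600 * (W : ℝ) * (L : ℝ) ^ 2 ≤ N := by exact_mod_cast hN1
  have hNL2 : 921600 * (L : ℝ) ^ 2 ≤ N := by
    refine le_trans ?_ hN1R
    have : 0 ≤ (L : ℝ) ^ 2 := by positivity
    nlinarith
  have hLR : (2 : ℝ) ≤ L := by exact_mod_cast hL
  have hN0 : (0 : ℝ) < N := by
    have : 0 < (L : ℝ) ^ 2 := by positivity
    linarith
  have hNL2n : 921600 * L ^ 2 ≤ N := by exact_mod_cast hNL2
  set Rb : ℕ := Nat.sqrt (4 * W * N) with hRb
  have hRb1 : 480 * (L : ℝ) * Rb ≤ N := by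
    have h1 : (Rb : ℝ) ^ 2 ≤ 4 * W * N := by
      have := Nat.sqrt_le' (4 * W * N)
      rw [← hRb] at this
      exact_mod_cast this
    have h2 : (480 * (L : ℝ) * Rb) ^ 2 ≤ (N : ℝ) ^ 2 := by
      calc (480 * (L : ℝ) * Rb) ^ 2 = 230400 * (L : ℝ) ^ 2 * (Rb : ℝ) ^ 2 := by ring
        _ ≤ 230400 * (L : ℝ) ^ 2 * (4 * W * N) := by gcongr
        _ = 921600 * (W : ℝ) * (L : ℝ) ^ 2 * N := by ring
        _ ≤ N * N := by gcongr
        _ = (N : ℝ) ^ 2 := by ring
    exact le_of_sq_le_sq h2 hN0.le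
  set I : Finset (ℕ × ℕ) := Ioc 960 (480 * L) ×ˢ range 3 with hI
  set A : ℕ × ℕ → Finset ℕ := fun x => As B W t N (x.1 ^ 2) (es B W t x.2) with hA
  set R : Finset ℕ := (Ioc (480 * L) Rb).biUnion (fun p => (range 3).biUnion
    (fun i => As B W t N (p ^ 2) (es B W t i))) ∪ As B W t N t 0 with hR
  refine good_count I A R N L hL y (fun j => BadP B W (uj B W t j) t) ?_ ?_ ?_ ?_
  · intro k hk0 hk
    have h1 := H 1 le_rfl (Nat.one_le_pow _ _ (by omega)) 0 N (by omega) k hk0 hk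
    simpa using h1
  · -- the covering
    intro j hj hb
    obtain ⟨p, hp, hb⟩ := hb
    have hmain : ∀ i ∈ range 3, ((p ^ 2 : ℕ) : ℤ) ∣ (uj B W t j : ℤ) - es B W t i →
        j ∈ R ∨ ∃ x ∈ I, j ∈ A x := by
      intro i hi hd
      have hco := cop W (p ^ 2) (uj B W t j) _ (W_dvd_es B W t i) (uj_mod B W t j) hd
      have hp960 : 960 < p := by
        by_contra hcon
        push Not at hcon
        have h1 := hWp p hp hcon
        have h2 : (p : ℤ) ∣ W := by exact_mod_cast h1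
        have h3 : (p : ℤ) ∣ ((p ^ 2 : ℕ) : ℤ) := by
          push_cast
          exact dvd_pow_self _ (by norm_num)
        have h4 := hco.isUnit_of_dvd' h2 h3
        rw [Int.isUnit_iff_natAbs_eq] at h4
        simp at h4
        exact hp.one_lt.ne' h4
      have hmemA : j ∈ As B W t N (p ^ 2) (es B W t i) := by
        rw [As, Finset.mem_filter, Finset.mem_range]
        exact ⟨hj, hd⟩
      rcases Nat.lt_or_ge (480 * L) p with h | h
      · left
        rw [hR, Finset.mem_union]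
        left
        rw [Finset.mem_biUnion]
        refine ⟨p, ?_, ?_⟩
        · rw [Finset.mem_Ioc]
          refine ⟨h, ?_⟩
          rw [hRb, Nat.le_sqrt']
          exact bad_le B W t N j i p hW hj hN2 hd
        · rw [Finset.mem_biUnion]
          exact ⟨i, hi, hmemA⟩
      · right
        refine ⟨(p, i), ?_, hmemA⟩
        rw [hI, Finset.mem_product, Finset.mem_Ioc]
        exact ⟨⟨hp960, h⟩, hi⟩
    rcases hb with ⟨h1, h2⟩ | h1 | h1 | h1
    · left
      have h3 : p = t := (Nat.prime_dvd_prime_iff_eq hp ht).mp h2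
      rw [hR, Finset.mem_union]
      right
      rw [As, Finset.mem_filter, Finset.mem_range]
      refine ⟨hj, ?_⟩
      rw [sub_zero]
      rw [h3] at h1
      exact_mod_cast h1
    · exact hmain 0 (by simp) (by simpa [es] using h1)
    · exact hmain 1 (by simp) (by simpa [es] using h1)
    · exact hmain 2 (by simp) (by simpa [es] using h1)
  · -- the small primes
    have h1 : ∀ x ∈ I, ∑ j ∈ A x, ‖Dk L (y j)‖ ^ 2 ≤ 4 * L * N * (1 / (x.1 : ℝ) ^ 2) := by
      intro x hx
      rw [hI, Finset.mem_product, Finset.mem_Ioc] at hx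
      have hx1 : 1 ≤ x.1 ^ 2 := Nat.one_le_pow _ _ (by omega)
      have hx2 : x.1 ^ 2 ≤ (480 * L) ^ 2 := Nat.pow_le_pow_left hx.1.2 2
      have hx3 : 2 * x.1 ^ 2 ≤ N := by
        have : (480 * L) ^ 2 = 230400 * L ^ 2 := by ring
        omega
      have h2 := As_sum B W t N (x.1 ^ 2) L (es B W t x.2) y hx1 hL1 (W_dvd_es B W t x.2) hx3
        (fun r N' hN' k hk0 hk => H (x.1 ^ 2) hx1 hx2 r N' hN' k hk0 hk)
      refine h2.trans (le_of_eq ?_)
      push_cast
      ring
    have h2 : ∑ x ∈ I, ∑ j ∈ A x, ‖Dk L (y j)‖ ^ 2 ≤ 12 * (L : ℝ) * (N : ℝ) * (1 / 960) := by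
      refine (Finset.sum_le_sum h1).trans ?_
      rw [hI, Finset.sum_product]
      have h3 : ∑ p ∈ Ioc 960 (480 * L), ∑ i ∈ range 3, 4 * (L : ℝ) * N * (1 / (((p, i) : ℕ × ℕ).1 : ℝ) ^ 2) =
          12 * (L : ℝ) * (N : ℝ) * ∑ p ∈ Ioc 960 (480 * L), 1 / (p : ℝ) ^ 2 := by
        rw [Finset.mul_sum]
        apply Finset.sum_congr rfl
        intro p _
        have e : ∀ i ∈ range 3, 4 * (L : ℝ) * N * (1 / (((p, i) : ℕ × ℕ).1 : ℝ) ^ 2) =
            4 * (L : ℝ) * N * (1 / (p : ℝ) ^ 2) := fun _ _ => rfl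
        rw [Finset.sum_congr rfl e, Finset.sum_const, Finset.card_range, nsmul_eq_mul]
        push_cast
        ring
      rw [h3]
      have h4 := sum_inv_sq 960 (480 * L) (by norm_num)
      have h5 : (1 : ℝ) / ((960 : ℕ) : ℝ) = 1 / 960 := by norm_num
      rw [h5] at h4
      exact mul_le_mul_of_nonneg_left h4 (by positivity)
    linarith
  · -- the large primes
    have hcard : (#R : ℝ) ≤ 3 * ((N : ℝ) / (480 * (L : ℝ)) + (Rb : ℝ)) + ((N : ℝ) / (t : ℝ) + 1) := by
      have h1 : (#R : ℝ) ≤ #((Ioc (480 * L) Rb).biUnion (fun p => (range 3).biUnion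
          (fun i => As B W t N (p ^ 2) (es B W t i)))) + #(As B W t N t 0) := by
        exact_mod_cast Finset.card_union_le _ _
      have h2 : (#((Ioc (480 * L) Rb).biUnion (fun p => (range 3).biUnion
          (fun i => As B W t N (p ^ 2) (es B W t i)))) : ℝ) ≤
          ∑ p ∈ Ioc (480 * L) Rb, 3 * (N * (1 / (p : ℝ) ^ 2) + 1) := by
        calc (#((Ioc (480 * L) Rb).biUnion (fun p => (range 3).biUnion
              (fun i => As B W t N (p ^ 2) (es B W t i)))) : ℝ) ≤
            ∑ p ∈ Ioc (480 * L) Rb, (#((range 3).biUnion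
              (fun i => As B W t N (p ^ 2) (es B W t i))) : ℝ) := by
              exact_mod_cast Finset.card_biUnion_le
          _ ≤ ∑ p ∈ Ioc (480 * L) Rb, 3 * (N * (1 / (p : ℝ) ^ 2) + 1) := by
              apply Finset.sum_le_sum
              intro p hp
              rw [Finset.mem_Ioc] at hp
              calc (#((range 3).biUnion (fun i => As B W t N (p ^ 2) (es B W t i))) : ℝ) ≤
                  ∑ i ∈ range 3, (#(As B W t N (p ^ 2) (es B W t i)) : ℝ) := by
                    exact_mod_cast Finset.card_biUnion_le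
                _ ≤ ∑ i ∈ range 3, ((N : ℝ) / ((p ^ 2 : ℕ) : ℝ) + 1) := by
                    apply Finset.sum_le_sum
                    intro i _
                    exact As_card B W t N (p ^ 2) _ (Nat.one_le_pow _ _ (by omega))
                      (W_dvd_es B W t i)
                _ = 3 * (N * (1 / (p : ℝ) ^ 2) + 1) := by
                    rw [Finset.sum_const, Finset.card_range, nsmul_eq_mul]
                    push_cast
                    ring
      have h3 : ∑ p ∈ Ioc (480 * L) Rb, 3 * ((N : ℝ) * (1 / (p : ℝ) ^ 2) + 1) ≤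
          3 * ((N : ℝ) / (480 * (L : ℝ)) + (Rb : ℝ)) := by
        rw [← Finset.mul_sum, Finset.sum_add_distrib, ← Finset.mul_sum]
        have h4 := sum_inv_sq (480 * L) Rb (by omega)
        have h5 : (#(Ioc (480 * L) Rb) : ℝ) ≤ Rb := by
          rw [Nat.card_Ioc]
          exact_mod_cast Nat.sub_le _ _
        have h6 : (N : ℝ) * ∑ p ∈ Ioc (480 * L) Rb, 1 / (p : ℝ) ^ 2 ≤ N / (480 * L) := by
          calc (N : ℝ) * ∑ p ∈ Ioc (480 * L) Rb, 1 / (p : ℝ) ^ 2 ≤ N * (1 / ((480 * L : ℕ) : ℝ)) := by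
                gcongr
            _ = N / (480 * L) := by
                push_cast
                ring
        simp only [Finset.sum_const, nsmul_eq_mul, mul_one]
        linarith
      have h4 := As_card B W t N t 0 ht.one_lt.le (dvd_zero _)
      linarith
    have ht0 : 320 * (L : ℝ) ≤ t := by exact_mod_cast htL
    have h5 : (N : ℝ) / t ≤ N / (320 * L) := by gcongr
    have h6 : (1 : ℝ) ≤ N / (320 * L) := by
      rw [le_div_iff₀ (by positivity)]
      nlinarith
    have h7 : (Rb : ℝ) ≤ N / (480 * L) := by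
      rw [le_div_iff₀ (by positivity)]
      linarith
    have h8 : (#R : ℝ) ≤ 3 * (N / (480 * L) + N / (480 * L)) + (N / (320 * L) + N / (320 * L)) := by
      linarith
    calc 20 * (L : ℝ) ^ 2 * #R ≤ 20 * (L : ℝ) ^ 2 *
          (3 * (N / (480 * L) + N / (480 * L)) + (N / (320 * L) + N / (320 * L))) := by gcongr
      _ = 3 * (L : ℝ) * N / 8 := by
          field_simp
          ring

end Pool.Agent.Q250.CB
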